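import Pool.Agent.H916F.Units

/-!
Averages of additive characters over the units modulo `m` in a class modulo `q`.
-/

namespace Pool.Agent.H916F

open Finset H343

/-- the units congruent to `t0` modulo `q` -/
def cls {m q : ℕ} [NeZero m] (hq : q ∣ m) (t0 : (ZMod m)ˣ) : Finset (ZMod m)ˣ :=
  Finset.univ.filter fun t => ZMod.unitsMap hq t = ZMod.unitsMap hq t0

lemma card_cls {m q : ℕ} [NeZero m] (hq : q ∣ m) (t0 : (ZMod m)ˣ) :
    (cls hq t0).card * q.totient = m.totient := by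
  classical
  have hq0 : q ≠ 0 := fun h => NeZero.ne m (by rw [h] at hq; exact Nat.eq_zero_of_zero_dvd hq)
  have : NeZero q := ⟨hq0⟩
  have h1 : ∀ h : (ZMod q)ˣ, (Finset.univ.filter fun g => ZMod.unitsMap hq g = h).card =
      (cls hq t0).card := by
    intro h
    unfold cls
    convert MonoidHom.card_fiber_eq_of_mem_range (ZMod.unitsMap hq)
      (ZMod.unitsMap_surjective hq h) (ZMod.unitsMap_surjective hq (ZMod.unitsMap hq t0))
  have h2 : (Finset.univ : Finset (ZMod m)ˣ).card = Fintype.card (ZMod q)ˣ * (cls hq t0).card := by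
    rw [Finset.card_eq_sum_card_fiberwise (s := (Finset.univ : Finset (ZMod m)ˣ))
      (f := ZMod.unitsMap hq) (t := Finset.univ)
      (fun _ _ => Finset.mem_coe.mpr (Finset.mem_univ _))]
    rw [Finset.sum_congr rfl (fun h _ => h1 h), Finset.sum_const, Finset.card_univ, smul_eq_mul]
  rw [Finset.card_univ] at h2
  rw [← ZMod.card_units_eq_totient m, ← ZMod.card_units_eq_totient q, h2]
  ring

lemma le_card_cls {m q : ℕ} [NeZero m] (hq : q ∣ m) (t0 : (ZMod m)ˣ) :
    (m.totient : ℝ) ≤ (cls hq t0).card * q := by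
  have h1 := card_cls hq t0
  have h2 := Nat.totient_le q
  have h3 : m.totient ≤ (cls hq t0).card * q := by
    rw [← h1]
    exact Nat.mul_le_mul_left _ h2
  exact_mod_cast h3

/-- the indicator of a class modulo `q` -/
lemma sum_char_cls {m q : ℕ} [NeZero m] [NeZero q] (hq : q ∣ m) (z : ZMod m) :
    ∑ j : ZMod q, ZMod.stdAddChar ((((m / q) * j.val : ℕ) : ZMod m) * z) =
      if ZMod.castHom hq (ZMod q) z = 0 then (q : ℂ) else 0 := by
  classical
  have hm : m ≠ 0 := NeZero.ne m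
  have hq0 : q ≠ 0 := NeZero.ne q
  have h1 : ∀ j : ZMod q, ZMod.stdAddChar ((((m / q) * j.val : ℕ) : ZMod m) * z) =
      ZMod.stdAddChar (j * ZMod.castHom hq (ZMod q) z) := by
    intro j
    obtain ⟨g, hg⟩ := hq
    have hg0 : g ≠ 0 := by rintro rfl; simp at hg; exact hm hg
    have h2 : ((((m / q) * j.val : ℕ) : ZMod m) * z) =
        ((((m / q : ℕ) : ℤ) * (j.val : ℤ) * (z.val : ℤ) : ℤ) : ZMod m) := by
      rw [Int.cast_mul, Int.cast_mul, Int.cast_natCast, Int.cast_natCast, Int.cast_natCast,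
        ZMod.natCast_zmod_val z, Nat.cast_mul]
    have h3 : j * ZMod.castHom (Dvd.intro g hg.symm) (ZMod q) z =
        (((j.val : ℤ) * (z.val : ℤ) : ℤ) : ZMod q) := by
      push_cast
      rw [ZMod.natCast_zmod_val, ZMod.castHom_apply, ZMod.cast_eq_val]
    rw [h2, h3, stdAddChar_eq_ex, stdAddChar_eq_ex]
    congr 1
    have hdiv : m / q = g := by rw [hg]; exact Nat.mul_div_cancel_left g (Nat.pos_of_ne_zero hq0)
    rw [hdiv]
    have hmr : (m : ℝ) = q * g := by rw [hg]; push_cast; rfl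
    rw [hmr]
    have hgr : (g : ℝ) ≠ 0 := by exact_mod_cast hg0
    have hqr : (q : ℝ) ≠ 0 := by exact_mod_cast hq0
    push_cast
    field_simp
  rw [Finset.sum_congr rfl (fun j _ => h1 j)]
  rw [AddChar.sum_mulShift _ (ZMod.isPrimitive_stdAddChar q)]
  simp only [ZMod.card]
  push_cast
  rfl

/-- the character sum over a class -/
theorem norm_sum_cls_le {m q : ℕ} [NeZero m] (hq : q ∣ m) (t0 : (ZMod m)ˣ) (b : ZMod m) (R : ℕ)
    (hb : 2 * q * R ^ 2 ≤ addOrderOf b) :
    ‖∑ t ∈ cls hq t0, ZMod.stdAddChar ((t : ZMod m) * b)‖ * (R : ℝ) ≤ m.totient := by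
  classical
  have hm : m ≠ 0 := NeZero.ne m
  have hq0 : q ≠ 0 := fun h => hm (by rw [h] at hq; exact Nat.eq_zero_of_zero_dvd hq)
  have : NeZero q := ⟨hq0⟩
  have hqr : (0 : ℝ) < q := by exact_mod_cast Nat.pos_of_ne_zero hq0
  -- the indicator
  have hind : ∀ t : (ZMod m)ˣ, (if ZMod.unitsMap hq t = ZMod.unitsMap hq t0 then (q : ℂ) else 0) =
      ∑ j : ZMod q, ZMod.stdAddChar ((((m / q) * j.val : ℕ) : ZMod m) *
        ((t : ZMod m) - (t0 : ZMod m))) := by
    intro t
    rw [sum_char_cls hq]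
    congr 1
    rw [map_sub, sub_eq_zero, Units.ext_iff, ZMod.unitsMap_val, ZMod.unitsMap_val,
      ZMod.castHom_apply, ZMod.castHom_apply]
  have h1 : (q : ℂ) * ∑ t ∈ cls hq t0, ZMod.stdAddChar ((t : ZMod m) * b) =
      ∑ j : ZMod q, ZMod.stdAddChar (-((((m / q) * j.val : ℕ) : ZMod m) * (t0 : ZMod m))) *
        ∑ t : (ZMod m)ˣ, ZMod.stdAddChar ((t : ZMod m) *
          (b + (((m / q) * j.val : ℕ) : ZMod m))) := by
    unfold cls
    rw [Finset.sum_filter, Finset.mul_sum]
    have h2 : ∀ t : (ZMod m)ˣ, (q : ℂ) * (if ZMod.unitsMap hq t = ZMod.unitsMap hq t0 then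
        ZMod.stdAddChar ((t : ZMod m) * b) else 0) =
        ∑ j : ZMod q, ZMod.stdAddChar (-((((m / q) * j.val : ℕ) : ZMod m) * (t0 : ZMod m))) *
          ZMod.stdAddChar ((t : ZMod m) * (b + (((m / q) * j.val : ℕ) : ZMod m))) := by
      intro t
      have h3 : (q : ℂ) * (if ZMod.unitsMap hq t = ZMod.unitsMap hq t0 then
          ZMod.stdAddChar ((t : ZMod m) * b) else 0) =
          (if ZMod.unitsMap hq t = ZMod.unitsMap hq t0 then (q : ℂ) else 0) *
            ZMod.stdAddChar ((t : ZMod m) * b) := by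
        split_ifs <;> simp
      rw [h3, hind t, Finset.sum_mul]
      apply Finset.sum_congr rfl
      intro j _
      rw [← AddChar.map_add_eq_mul, ← AddChar.map_add_eq_mul]
      congr 1
      ring
    rw [Finset.sum_congr rfl (fun t _ => h2 t), Finset.sum_comm]
    apply Finset.sum_congr rfl
    intro j _
    rw [Finset.mul_sum]
  have hR : ∀ j : ZMod q, ‖∑ t : (ZMod m)ˣ, ZMod.stdAddChar ((t : ZMod m) *
      (b + (((m / q) * j.val : ℕ) : ZMod m)))‖ * (R : ℝ) ≤ m.totient := by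
    intro j
    set b' := b + (((m / q) * j.val : ℕ) : ZMod m) with hb'
    have h2 := norm_sum_units_le m b'
    set D' := addOrderOf b' with hD'
    have hD'0 : 0 < D' := addOrderOf_pos b'
    have h3 : (q * D') • b = 0 := by
      have h4 : (q * D') • b' = 0 := by
        rw [mul_smul, hD', addOrderOf_nsmul_eq_zero, smul_zero]
      have h5 : (q * D') • ((((m / q) * j.val : ℕ)) : ZMod m) = 0 := by
        rw [nsmul_eq_mul, ← Nat.cast_mul, ZMod.natCast_eq_zero_iff]
        refine ⟨D' * j.val, ?_⟩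
        obtain ⟨g, hg⟩ := hq
        have hdiv : m / q = g := by
          rw [hg]; exact Nat.mul_div_cancel_left g (Nat.pos_of_ne_zero hq0)
        rw [hdiv, hg]
        ring
      rw [hb', smul_add, h5, add_zero] at h4
      exact h4
    have h4 : addOrderOf b ≤ q * D' :=
      Nat.le_of_dvd (Nat.mul_pos (Nat.pos_of_ne_zero hq0) hD'0)
        (addOrderOf_dvd_of_nsmul_eq_zero h3)
    have h5 : 2 * R ^ 2 ≤ D' := by
      have : q * (2 * R ^ 2) ≤ q * D' := by
        calc q * (2 * R ^ 2) = 2 * q * R ^ 2 := by ring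
          _ ≤ _ := hb.trans h4
      exact Nat.le_of_mul_le_mul_left this (Nat.pos_of_ne_zero hq0)
    have h6 : R ≤ D'.totient := by
      have h7 := le_two_mul_totient_sq hD'0.ne'
      have h8 : R ^ 2 ≤ D'.totient ^ 2 := by omega
      exact (Nat.pow_le_pow_iff_left (by norm_num)).mp h8
    calc _ ≤ ‖∑ t : (ZMod m)ˣ, ZMod.stdAddChar ((t : ZMod m) * b')‖ * (D'.totient : ℝ) := by
          apply mul_le_mul_of_nonneg_left _ (norm_nonneg _)
          exact_mod_cast h6
      _ ≤ _ := h2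
  have h2 := congrArg norm h1
  rw [norm_mul, Complex.norm_natCast] at h2
  have h3 : (q : ℝ) * (‖∑ t ∈ cls hq t0, ZMod.stdAddChar ((t : ZMod m) * b)‖ * (R : ℝ)) ≤
      (q : ℝ) * m.totient := by
    calc (q : ℝ) * (‖∑ t ∈ cls hq t0, ZMod.stdAddChar ((t : ZMod m) * b)‖ * (R : ℝ))
        = ‖∑ j : ZMod q, ZMod.stdAddChar (-((((m / q) * j.val : ℕ) : ZMod m) * (t0 : ZMod m))) *
        ∑ t : (ZMod m)ˣ, ZMod.stdAddChar ((t : ZMod m) *
          (b + (((m / q) * j.val : ℕ) : ZMod m)))‖ * (R : ℝ) := by rw [← h2]; ring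
      _ ≤ (∑ j : ZMod q, ‖∑ t : (ZMod m)ˣ, ZMod.stdAddChar ((t : ZMod m) *
          (b + (((m / q) * j.val : ℕ) : ZMod m)))‖) * (R : ℝ) := by
          apply mul_le_mul_of_nonneg_right _ (by positivity)
          refine (norm_sum_le _ _).trans ?_
          apply Finset.sum_le_sum
          intro j _
          rw [norm_mul, AddChar.norm_apply, one_mul]
      _ = ∑ j : ZMod q, ‖∑ t : (ZMod m)ˣ, ZMod.stdAddChar ((t : ZMod m) *
          (b + (((m / q) * j.val : ℕ) : ZMod m)))‖ * (R : ℝ) := by rw [Finset.sum_mul]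
      _ ≤ ∑ _j : ZMod q, (m.totient : ℝ) := Finset.sum_le_sum fun j _ => hR j
      _ = (q : ℝ) * m.totient := by
          rw [Finset.sum_const, Finset.card_univ, ZMod.card, nsmul_eq_mul]
  exact le_of_mul_le_mul_left h3 hqr

end Pool.Agent.H916F
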