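import Pool.Agent.H916R2.Relations

/-!
Distribution relations for composite numbers, and the relation of a line.
-/

namespace Pool.Agent.H916F

open Finset Pool.Agent.H916R2

variable {m : ℕ} [NeZero m]

/-- torsion elements of `ZMod m` -/
lemma torsion_eq {c e : ℕ} (hce : c * e = m) {x : ZMod m} (hx : (c : ZMod m) * x = 0) :
    ∃ j : ℕ, j < c ∧ x = (j : ZMod m) * (e : ZMod m) := by
  have hm : m ≠ 0 := NeZero.ne m
  have hc0 : 0 < c := Nat.pos_of_ne_zero (by rintro rfl; simp at hce; exact hm hce.symm)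
  have h1 : ((c * x.val : ℕ) : ZMod m) = 0 := by
    rw [Nat.cast_mul, ZMod.natCast_zmod_val]
    exact hx
  rw [ZMod.natCast_eq_zero_iff] at h1
  have h2 : c * e ∣ c * x.val := by rw [hce]; exact h1
  obtain ⟨j, hj⟩ := Nat.dvd_of_mul_dvd_mul_left hc0 h2
  refine ⟨j, ?_, ?_⟩
  · have h3 := ZMod.val_lt x
    by_contra hcon
    push Not at hcon
    have h4 : e * c ≤ e * j := Nat.mul_le_mul_left _ hcon
    rw [mul_comm e c, hce, ← hj] at h4
    omega
  · calc x = ((x.val : ℕ) : ZMod m) := (ZMod.natCast_zmod_val x).symm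
      _ = ((e * j : ℕ) : ZMod m) := by rw [hj]
      _ = _ := by push_cast; ring

lemma dist_prime {Q : Type*} [AddCommGroup Q] {f : ZMod m → Q} (hf : OddDist f) {p : ℕ}
    (hp : p.Prime) (hpm : p ∣ m) (z0 : ZMod m) :
    ∑ z ∈ univ.filter (fun z : ZMod m => (p : ZMod m) * z = p * z0), f z = f (p * z0) := by
  classical
  obtain ⟨d, hd⟩ := hpm
  have hm : m ≠ 0 := NeZero.ne m
  have hd0 : 0 < d := Nat.pos_of_ne_zero (by rintro rfl; simp at hd; exact hm hd)
  rw [← hf.dist p d hp hd.symm z0]
  symm
  refine Finset.sum_bij (fun i _ => z0 + (i : ZMod m) * (d : ZMod m)) ?_ ?_ ?_ ?_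
  · intro i _
    rw [mem_filter]
    refine ⟨mem_univ _, ?_⟩
    have h1 : (p : ZMod m) * (d : ZMod m) = 0 := by
      rw [← Nat.cast_mul, ← hd, ZMod.natCast_self]
    linear_combination (i : ZMod m) * h1
  · intro i hi j hj hij
    rw [mem_range] at hi hj
    have h1 : (((i * d : ℕ)) : ZMod m) = ((j * d : ℕ) : ZMod m) := by
      push_cast
      exact add_left_cancel hij
    rw [ZMod.natCast_eq_natCast_iff'] at h1
    have hi' : i * d < m := by rw [hd]; exact Nat.mul_lt_mul_of_pos_right hi hd0
    have hj' : j * d < m := by rw [hd]; exact Nat.mul_lt_mul_of_pos_right hj hd0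
    rw [Nat.mod_eq_of_lt hi', Nat.mod_eq_of_lt hj'] at h1
    exact Nat.eq_of_mul_eq_mul_right hd0 h1
  · intro z hz
    rw [mem_filter] at hz
    have h1 : (p : ZMod m) * (z - z0) = 0 := by rw [mul_sub, hz.2, sub_self]
    obtain ⟨j, hj, hj'⟩ := torsion_eq hd.symm h1
    refine ⟨j, mem_range.mpr hj, ?_⟩
    rw [← hj']
    ring
  · intro i _
    rfl

theorem dist_comp {Q : Type*} [AddCommGroup Q] {f : ZMod m → Q} (hf : OddDist f) (c : ℕ) :
    c ∣ m → ∀ z0 : ZMod m,
    ∑ z ∈ univ.filter (fun z : ZMod m => (c : ZMod m) * z = c * z0), f z = f (c * z0) := by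
  classical
  induction c using Nat.strong_induction_on with
  | _ c ih =>
  intro hcm z0
  have hm : m ≠ 0 := NeZero.ne m
  have hc0 : c ≠ 0 := fun h => hm (by rw [h] at hcm; exact Nat.eq_zero_of_zero_dvd hcm)
  by_cases hc1 : c = 1
  · subst hc1
    simp only [Nat.cast_one, one_mul]
    rw [Finset.sum_filter, Finset.sum_ite_eq' univ z0 f, if_pos (mem_univ z0)]
  · have hp := Nat.minFac_prime hc1
    set p := c.minFac with hpdef
    obtain ⟨c', hc'⟩ : p ∣ c := Nat.minFac_dvd c
    have hc'0 : 0 < c' := Nat.pos_of_ne_zero (by rintro rfl; simp at hc'; exact hc0 hc')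
    have hlt : c' < c := by
      rw [hc']
      have := hp.two_le
      nlinarith
    have hpm : p ∣ m := (Nat.minFac_dvd c).trans hcm
    have hc'm : c' ∣ m := (Dvd.intro_left p hc'.symm).trans hcm
    obtain ⟨e, he⟩ := hcm
    have hce : c' * (p * e) = m := by rw [he, hc']; ring
    have hpc : ((c : ℕ) : ZMod m) = (c' : ZMod m) * (p : ZMod m) := by
      rw [hc']; push_cast; ring
    have hmaps : ∀ z ∈ univ.filter (fun z : ZMod m => (c : ZMod m) * z = c * z0),
        (p : ZMod m) * z ∈ univ.filter (fun w : ZMod m => (c' : ZMod m) * w = c' * (p * z0)) := by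
      intro z hz
      rw [mem_filter] at hz ⊢
      refine ⟨mem_univ _, ?_⟩
      have h1 := hz.2
      rw [hpc] at h1
      rw [← mul_assoc, ← mul_assoc]
      exact h1
    rw [← Finset.sum_fiberwise_of_maps_to hmaps]
    have hinner : ∀ w ∈ univ.filter (fun w : ZMod m => (c' : ZMod m) * w = c' * (p * z0)),
        ∑ z ∈ (univ.filter (fun z : ZMod m => (c : ZMod m) * z = c * z0)).filter
          (fun z => (p : ZMod m) * z = w), f z = f w := by
      intro w hw
      rw [mem_filter] at hw
      have h1 : (c' : ZMod m) * (w - p * z0) = 0 := by rw [mul_sub, hw.2, sub_self]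
      obtain ⟨j, _, hj⟩ := torsion_eq hce h1
      have hw' : w = (p : ZMod m) * (z0 + (j : ZMod m) * (e : ZMod m)) := by
        push_cast at hj
        linear_combination hj
      have h2 : (univ.filter (fun z : ZMod m => (c : ZMod m) * z = c * z0)).filter
          (fun z => (p : ZMod m) * z = w) =
          univ.filter (fun z : ZMod m => (p : ZMod m) * z =
            p * (z0 + (j : ZMod m) * (e : ZMod m))) := by
        ext z
        simp only [mem_filter, mem_univ, true_and]
        rw [← hw']
        constructor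
        · exact fun h => h.2
        · intro h
          refine ⟨?_, h⟩
          rw [hpc]
          have := hw.2
          rw [← h] at this
          rw [mul_assoc, mul_assoc]
          exact this
      rw [h2, dist_prime hf hp hpm, ← hw']
    rw [Finset.sum_congr rfl hinner, ih c' hlt hc'm (p * z0)]
    congr 1
    rw [hpc, mul_assoc]

/-- the relation of a line: if every point of `ZMod m` solves as many of the equations
`c_i z = A_i` with `c_i > 0` as with `c_i < 0` then the sum of `f A_i` over the `i` with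
`c_i ≠ 0` vanishes -/
theorem line_rel {Q : Type*} [AddCommGroup Q] {f : ZMod m → Q} (hf : OddDist f) {N : ℕ}
    (c : Fin N → ℤ) (A : Fin N → ZMod m)
    (hdvd : ∀ i, c i ≠ 0 → (c i).natAbs ∣ m)
    (hsol : ∀ i, c i ≠ 0 → ∃ z, (c i : ZMod m) * z = A i)
    (hcount : ∀ z : ZMod m,
      (univ.filter fun i => 0 < c i ∧ (c i : ZMod m) * z = A i).card =
      (univ.filter fun i => c i < 0 ∧ (c i : ZMod m) * z = A i).card) :
    ∑ i ∈ univ.filter (fun i => c i ≠ 0), f (A i) = 0 := by
  classical
  -- the value at `A i`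
  have hpos : ∀ i, 0 < c i → f (A i) =
      ∑ z ∈ univ.filter (fun z : ZMod m => (c i : ZMod m) * z = A i), f z := by
    intro i hi
    obtain ⟨z0, hz0⟩ := hsol i hi.ne'
    have h1 : ((c i : ℤ) : ZMod m) = (((c i).natAbs : ℕ) : ZMod m) := by
      have : (c i : ℤ) = (((c i).natAbs : ℕ) : ℤ) := (Int.natAbs_of_nonneg hi.le).symm
      rw [this]
      simp
    have h2 := dist_comp hf (c i).natAbs (hdvd i hi.ne') z0
    rw [← h1, hz0] at h2
    exact h2.symm
  have hneg : ∀ i, c i < 0 → f (A i) =
      -∑ z ∈ univ.filter (fun z : ZMod m => (c i : ZMod m) * z = A i), f z := by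
    intro i hi
    obtain ⟨z0, hz0⟩ := hsol i hi.ne
    have h1 : ((c i : ℤ) : ZMod m) = -(((c i).natAbs : ℕ) : ZMod m) := by
      have : (c i : ℤ) = -(((c i).natAbs : ℕ) : ℤ) := by omega
      conv_lhs => rw [this]
      rw [Int.cast_neg, Int.cast_natCast]
    have h2 := dist_comp hf (c i).natAbs (hdvd i hi.ne) z0
    have h3 : (((c i).natAbs : ℕ) : ZMod m) * z0 = -A i := by
      rw [← hz0, h1]
      ring
    rw [h3, hf.neg] at h2
    have h4 : f (A i) = -(-f (A i)) := (neg_neg _).symm
    rw [h4, ← h2]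
    congr 1
    apply Finset.sum_congr _ (fun _ _ => rfl)
    ext z
    simp only [mem_filter, mem_univ, true_and]
    rw [h1]
    constructor
    · intro h
      rw [neg_mul, h, neg_neg]
    · intro h
      rw [← h]
      ring
  have hsplit : ∑ i ∈ univ.filter (fun i => c i ≠ 0), f (A i) =
      ∑ i ∈ univ.filter (fun i => 0 < c i), f (A i) +
      ∑ i ∈ univ.filter (fun i => c i < 0), f (A i) := by
    rw [← Finset.sum_union]
    · apply Finset.sum_congr _ (fun _ _ => rfl)
      ext i
      simp only [mem_filter, mem_univ, true_and, mem_union]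
      omega
    · rw [Finset.disjoint_filter]
      intro i _ h1 h2
      omega
  have hP : ∑ i ∈ univ.filter (fun i => 0 < c i), f (A i) =
      ∑ z : ZMod m, (univ.filter fun i => 0 < c i ∧ (c i : ZMod m) * z = A i).card • f z := by
    rw [Finset.sum_congr rfl (fun i hi => hpos i (mem_filter.mp hi).2)]
    simp_rw [Finset.sum_filter (fun z : ZMod m => (c _ : ZMod m) * z = A _)]
    rw [Finset.sum_comm]
    apply Finset.sum_congr rfl
    intro z _
    rw [← Finset.sum_filter, Finset.sum_const, Finset.filter_filter]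
  have hM : ∑ i ∈ univ.filter (fun i => c i < 0), f (A i) =
      -∑ z : ZMod m, (univ.filter fun i => c i < 0 ∧ (c i : ZMod m) * z = A i).card • f z := by
    rw [Finset.sum_congr rfl (fun i hi => hneg i (mem_filter.mp hi).2), Finset.sum_neg_distrib]
    congr 1
    simp_rw [Finset.sum_filter (fun z : ZMod m => (c _ : ZMod m) * z = A _)]
    rw [Finset.sum_comm]
    apply Finset.sum_congr rfl
    intro z _
    rw [← Finset.sum_filter, Finset.sum_const, Finset.filter_filter]
  rw [hsplit, hP, hM, ← sub_eq_add_neg, sub_eq_zero]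
  apply Finset.sum_congr rfl
  intro z _
  rw [hcount z]

end Pool.Agent.H916F
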