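import Pool.Agent.H343R2.Defs

/-!
The kernel `∏ ((1 + cos 2 π x_i) / 2)^L` as a trigonometric polynomial.
-/

namespace Pool.Agent.H916F

open Finset H343

noncomputable def kap (L : ℕ) (u : ℝ) : ℝ := ((1 + Real.cos (2 * Real.pi * u)) / 2) ^ L

noncomputable def wt (L j : ℕ) : ℝ := ((2 * L).choose j : ℝ) / 4 ^ L

lemma wt_nonneg (L j : ℕ) : 0 ≤ wt L j := by unfold wt; positivity

lemma half_nonneg (u : ℝ) : 0 ≤ (1 + Real.cos (2 * Real.pi * u)) / 2 := by
  have := Real.neg_one_le_cos (2 * Real.pi * u)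
  linarith

lemma half_le_one (u : ℝ) : (1 + Real.cos (2 * Real.pi * u)) / 2 ≤ 1 := by
  have := Real.cos_le_one (2 * Real.pi * u)
  linarith

lemma kap_nonneg (L : ℕ) (u : ℝ) : 0 ≤ kap L u := pow_nonneg (half_nonneg u) L

lemma kap_le_one (L : ℕ) (u : ℝ) : kap L u ≤ 1 := pow_le_one₀ (half_nonneg u) (half_le_one u)

lemma kap_zero (L : ℕ) : kap L 0 = 1 := by
  unfold kap
  simp

lemma ex_add (x y : ℝ) : ex (x + y) = ex x * ex y := by
  unfold ex
  rw [← Complex.exp_add]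
  congr 1
  push_cast
  ring

lemma ex_zero : ex 0 = 1 := by
  unfold ex
  simp

lemma ex_ne_zero (x : ℝ) : ex x ≠ 0 := Complex.exp_ne_zero _

lemma ex_nat_mul (n : ℕ) (x : ℝ) : ex (n * x) = ex x ^ n := by
  unfold ex
  rw [← Complex.exp_nat_mul]
  congr 1
  push_cast
  ring

lemma ex_int (z : ℤ) : ex (z : ℝ) = 1 := by
  unfold ex
  rw [Complex.exp_eq_one_iff]
  refine ⟨z, ?_⟩
  push_cast
  ring

lemma norm_ex (x : ℝ) : ‖ex x‖ = 1 := by
  unfold ex
  exact Complex.norm_exp_ofReal_mul_I _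

lemma ex_sum {ι : Type*} (s : Finset ι) (f : ι → ℝ) : ex (∑ i ∈ s, f i) = ∏ i ∈ s, ex (f i) := by
  classical
  induction s using Finset.induction_on with
  | empty => simp [ex_zero]
  | insert a s ha ih => rw [sum_insert ha, prod_insert ha, ex_add, ih]

lemma half_eq (u : ℝ) : (((1 + Real.cos (2 * Real.pi * u)) / 2 : ℝ) : ℂ) * (4 * ex u) =
    (ex u + 1) ^ 2 := by
  have h1 : ((Real.cos (2 * Real.pi * u) : ℝ) : ℂ) = (ex u + (ex u)⁻¹) / 2 := by
    unfold ex
    rw [Complex.ofReal_cos, Complex.cos, ← Complex.exp_neg]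
    congr 2
    push_cast
    ring_nf
  push_cast
  push_cast at h1
  rw [h1]
  have := ex_ne_zero u
  field_simp
  ring

lemma kap_eq (L : ℕ) (u : ℝ) :
    ((kap L u : ℝ) : ℂ) = ∑ j ∈ range (2 * L + 1), (wt L j : ℂ) * ex (((j : ℝ) - L) * u) := by
  have hz := ex_ne_zero u
  have h1 : ((kap L u : ℝ) : ℂ) * (4 ^ L * ex u ^ L) = (ex u + 1) ^ (2 * L) := by
    unfold kap
    rw [pow_mul, ← half_eq u, mul_pow, mul_pow]
    push_cast
    ring
  have h2 : ∀ j ∈ range (2 * L + 1), (wt L j : ℂ) * ex (((j : ℝ) - L) * u) * (4 ^ L * ex u ^ L) =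
      ex u ^ j * 1 ^ (2 * L - j) * ((2 * L).choose j : ℂ) := by
    intro j _
    have h3 : ex (((j : ℝ) - L) * u) * ex u ^ L = ex u ^ j := by
      rw [← ex_nat_mul, ← ex_nat_mul, ← ex_add]
      congr 1
      ring
    have h4 : (wt L j : ℂ) * 4 ^ L = ((2 * L).choose j : ℂ) := by
      unfold wt
      push_cast
      field_simp
    calc _ = ((wt L j : ℂ) * 4 ^ L) * (ex (((j : ℝ) - L) * u) * ex u ^ L) := by ring
      _ = _ := by rw [h3, h4]; ring
  have h3 : (∑ j ∈ range (2 * L + 1), (wt L j : ℂ) * ex (((j : ℝ) - L) * u)) *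
      (4 ^ L * ex u ^ L) = (ex u + 1) ^ (2 * L) := by
    rw [sum_mul, sum_congr rfl h2, add_pow]
  have h4 : (4 ^ L * ex u ^ L : ℂ) ≠ 0 := by
    apply mul_ne_zero
    · exact pow_ne_zero _ (by norm_num)
    · exact pow_ne_zero _ hz
  exact mul_right_cancel₀ h4 (h1.trans h3.symm)

/-- the index set of the expansion -/
def idx (N L : ℕ) : Finset (Fin N → ℕ) := Fintype.piFinset fun _ => range (2 * L + 1)

noncomputable def wts {N : ℕ} (L : ℕ) (j : Fin N → ℕ) : ℝ := ∏ i, wt L (j i)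

lemma wts_nonneg {N : ℕ} (L : ℕ) (j : Fin N → ℕ) : 0 ≤ wts L j :=
  Finset.prod_nonneg fun _ _ => wt_nonneg _ _

lemma prod_kap {N : ℕ} (L : ℕ) (x : Fin N → ℝ) :
    ((∏ i, kap L (x i) : ℝ) : ℂ) =
      ∑ j ∈ idx N L, (wts L j : ℂ) * ex (∑ i, ((j i : ℝ) - L) * x i) := by
  rw [Complex.ofReal_prod, Finset.prod_congr rfl (fun i _ => kap_eq L (x i)),
    Finset.prod_univ_sum]
  apply sum_congr rfl
  intro j _
  rw [Finset.prod_mul_distrib, ex_sum]
  unfold wts
  push_cast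
  rfl

lemma sum_wts (N L : ℕ) : ∑ j ∈ idx N L, wts L j = 1 := by
  have h := prod_kap (N := N) L (fun _ => 0)
  simp only [kap_zero, Finset.prod_const_one, mul_zero, Finset.sum_const_zero, ex_zero,
    mul_one] at h
  have h2 : ((1 : ℝ) : ℂ) = ((∑ j ∈ idx N L, wts L j : ℝ) : ℂ) := by
    rw [h]
    push_cast
    rfl
  exact (Complex.ofReal_injective h2).symm

lemma center_mem (N L : ℕ) : (fun _ => L) ∈ idx N L := by
  unfold idx
  rw [Fintype.mem_piFinset]
  intro _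
  rw [mem_range]
  omega

lemma le_wts_center (N L : ℕ) (hL : 0 < L) :
    (1 / (2 * (L : ℝ))) ^ N ≤ wts L (fun _ : Fin N => L) := by
  unfold wts
  rw [Finset.prod_const, Finset.card_univ, Fintype.card_fin]
  apply pow_le_pow_left₀ (by positivity)
  unfold wt
  have h := Nat.four_pow_le_two_mul_self_mul_centralBinom L hL
  rw [Nat.centralBinom] at h
  have h2 : ((4 : ℝ) ^ L) ≤ 2 * L * ((2 * L).choose L : ℝ) := by exact_mod_cast h
  have hL' : (0 : ℝ) < L := by exact_mod_cast hL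
  rw [div_le_div_iff₀ (by positivity) (by positivity)]
  linarith

/-- away from the integers the kernel is small -/
lemma half_le_of_far {ε u : ℝ} (h : ∀ z : ℤ, ε ≤ |u - z|) (hε0 : 0 ≤ ε) :
    (1 + Real.cos (2 * Real.pi * u)) / 2 ≤ (1 + Real.cos (2 * Real.pi * ε)) / 2 := by
  have h1 : Real.cos (2 * Real.pi * u) = Real.cos (2 * Real.pi * |u - round u|) := by
    rw [show 2 * Real.pi * |u - round u| = |2 * Real.pi * (u - round u)| by
      rw [abs_mul, abs_of_pos (by positivity : (0 : ℝ) < 2 * Real.pi)], Real.cos_abs]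
    rw [show 2 * Real.pi * (u - round u) = 2 * Real.pi * u - (round u : ℤ) * (2 * Real.pi) by ring,
      Real.cos_sub_int_mul_two_pi]
  have h2 := h (round u)
  have h3 := abs_sub_round u
  have hpi := Real.pi_pos
  have h4 : Real.cos (2 * Real.pi * |u - round u|) ≤ Real.cos (2 * Real.pi * ε) := by
    apply Real.cos_le_cos_of_nonneg_of_le_pi
    · positivity
    · nlinarith
    · apply mul_le_mul_of_nonneg_left h2 (by positivity)
  rw [h1]
  linarith

end Pool.Agent.H916F
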