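import Pool.Agent.H916F.ClassSum
import Pool.Agent.H916F.Kernel

/-!
Equidistribution of the conjugates of a torsion tuple: the quantitative core.
-/

namespace Pool.Agent.H916F

open Finset H343

lemma stdAddChar_val (m : ℕ) [NeZero m] (z : ZMod m) :
    ZMod.stdAddChar z = ex ((z.val : ℝ) / m) := by
  have h := stdAddChar_eq_ex m (z.val : ℤ)
  push_cast at h
  rw [ZMod.natCast_zmod_val] at h
  exact h

lemma stdAddChar_sum (m : ℕ) [NeZero m] {N : ℕ} (k : Fin N → ℤ) (a : Fin N → ZMod m) :
    ZMod.stdAddChar (∑ i, k i • a i) = ex (∑ i, (k i : ℝ) * (((a i).val : ℝ) / m)) := by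
  rw [ex_sum]
  have h1 : ZMod.stdAddChar (∑ i, k i • a i) = ∏ i, ZMod.stdAddChar (k i • a i) := by
    classical
    have : ∀ s : Finset (Fin N), ZMod.stdAddChar (∑ i ∈ s, k i • a i) =
        ∏ i ∈ s, ZMod.stdAddChar (k i • a i) := by
      intro s
      induction s using Finset.induction_on with
      | empty => simp
      | insert b s hb ih => rw [sum_insert hb, prod_insert hb, AddChar.map_add_eq_mul, ih]
    exact this univ
  rw [h1]
  apply prod_congr rfl
  intro i _
  have h2 : k i • a i = ((k i * ((a i).val : ℤ) : ℤ) : ZMod m) := by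
    push_cast
    rw [ZMod.natCast_zmod_val, zsmul_eq_mul]
  rw [h2, stdAddChar_eq_ex]
  congr 1
  push_cast
  ring

/-- the quantitative core -/
theorem core {N : ℕ} (L q R : ℕ) (ε : ℝ) {m : ℕ} [NeZero m] (hL : 0 < L) (hq : q ∣ m)
    (hR0 : 0 < R) (hε0 : 0 ≤ ε)
    (hsmall : (q : ℝ) / R + ((1 + Real.cos (2 * Real.pi * ε)) / 2) ^ L < (1 / (2 * (L : ℝ))) ^ N)
    (a : Fin N → ZMod m) (t0 : (ZMod m)ˣ) (x0 : Fin N → ℝ)
    (h : ∀ k : Fin N → ℤ, (∀ i, |k i| ≤ L) →
      (q • (∑ i, k i • a i) = 0 ∧ ∃ z : ℤ,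
        ∑ i, (k i : ℝ) * x0 i - ((((t0 : ZMod m) * ∑ i, k i • a i).val : ℝ) / m) = z) ∨
      2 * q * R ^ 2 ≤ addOrderOf (∑ i, k i • a i)) :
    ∃ t : (ZMod m)ˣ, ∀ i, ∃ z : ℤ, |((((t : ZMod m) * a i).val : ℝ) / m - x0 i) - z| < ε := by
  classical
  by_contra hcon
  push Not at hcon
  have hm : m ≠ 0 := NeZero.ne m
  have hq0 : q ≠ 0 := fun h => hm (by rw [h] at hq; exact Nat.eq_zero_of_zero_dvd hq)
  have hRr : (0 : ℝ) < R := by exact_mod_cast hR0
  set η := (1 + Real.cos (2 * Real.pi * ε)) / 2 with hη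
  have hη0 : 0 ≤ η := half_nonneg ε
  have hη1 : η ≤ 1 := half_le_one ε
  set X : (ZMod m)ˣ → Fin N → ℝ := fun t i => (((t : ZMod m) * a i).val : ℝ) / m - x0 i with hX
  set C := cls hq t0 with hC
  have hCcard : (m.totient : ℝ) ≤ (C.card : ℝ) * q := le_card_cls hq t0
  have hphi : (0 : ℝ) < m.totient := by
    exact_mod_cast Nat.totient_pos.mpr (Nat.pos_of_ne_zero hm)
  have hCpos : (0 : ℝ) < C.card := by
    by_contra hneg
    have : (C.card : ℝ) = 0 := le_antisymm (not_lt.mp hneg) (Nat.cast_nonneg _)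
    rw [this, zero_mul] at hCcard
    linarith
  -- upper bound
  have hup : ∀ t : (ZMod m)ˣ, ∏ i, kap L (X t i) ≤ η ^ L := by
    intro t
    obtain ⟨i, hi⟩ := hcon t
    have h1 : kap L (X t i) ≤ η ^ L := by
      unfold kap
      exact pow_le_pow_left₀ (half_nonneg _) (half_le_of_far hi hε0) L
    calc ∏ j, kap L (X t j) = kap L (X t i) * ∏ j ∈ univ.erase i, kap L (X t j) :=
          (Finset.mul_prod_erase univ _ (mem_univ i)).symm
      _ ≤ η ^ L * 1 := by
          apply mul_le_mul h1 _ (Finset.prod_nonneg fun _ _ => kap_nonneg _ _) (pow_nonneg hη0 L)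
          exact Finset.prod_le_one (fun _ _ => kap_nonneg _ _) (fun _ _ => kap_le_one _ _)
      _ = η ^ L := mul_one _
  have hup2 : ∑ t ∈ C, ∏ i, kap L (X t i) ≤ C.card * η ^ L := by
    calc _ ≤ ∑ _t ∈ C, η ^ L := Finset.sum_le_sum fun t _ => hup t
      _ = _ := by rw [sum_const, nsmul_eq_mul]
  -- expansion
  set inner : (Fin N → ℕ) → ℂ := fun j => ∑ t ∈ C, ex (∑ i, ((j i : ℝ) - L) * X t i) with hinner
  have hexp : ((∑ t ∈ C, ∏ i, kap L (X t i) : ℝ) : ℂ) =
      ∑ j ∈ idx N L, (wts L j : ℂ) * inner j := by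
    rw [Complex.ofReal_sum, Finset.sum_congr rfl (fun t _ => prod_kap L (X t)), Finset.sum_comm]
    apply sum_congr rfl
    intro j _
    rw [hinner, Finset.mul_sum]
  -- the inner sums
  have hin : ∀ j ∈ idx N L, -((C.card : ℝ) * (q / R)) ≤ (inner j).re := by
    intro j hj
    set k : Fin N → ℤ := fun i => (j i : ℤ) - L with hk
    have hkL : ∀ i, |k i| ≤ L := by
      intro i
      unfold idx at hj
      rw [Fintype.mem_piFinset] at hj
      have := mem_range.mp (hj i)
      rw [abs_le]
      simp only [hk]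
      omega
    set b := ∑ i, k i • a i with hb
    -- the summand
    have hterm : ∀ t : (ZMod m)ˣ, ex (∑ i, ((j i : ℝ) - L) * X t i) =
        ZMod.stdAddChar ((t : ZMod m) * b) * ex (-(∑ i, (k i : ℝ) * x0 i)) := by
      intro t
      have h1 : (t : ZMod m) * b = ∑ i, k i • ((t : ZMod m) * a i) := by
        rw [hb, Finset.mul_sum]
        apply sum_congr rfl
        intro i _
        rw [mul_smul_comm]
      rw [h1, stdAddChar_sum, ← ex_add]
      congr 1
      rw [← sub_eq_add_neg, ← Finset.sum_sub_distrib]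
      apply sum_congr rfl
      intro i _
      simp only [hX, hk]
      push_cast
      ring
    have hfac : inner j = (∑ t ∈ C, ZMod.stdAddChar ((t : ZMod m) * b)) *
        ex (-(∑ i, (k i : ℝ) * x0 i)) := by
      rw [hinner, Finset.sum_mul]
      exact sum_congr rfl fun t _ => hterm t
    rcases h k hkL with ⟨h1, z, hz⟩ | h1
    · have h2 : ∀ t ∈ C, ZMod.stdAddChar ((t : ZMod m) * b) =
          ZMod.stdAddChar ((t0 : ZMod m) * b) := by
        intro t ht
        rw [hC, cls, mem_filter] at ht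
        have h3 : ZMod.castHom hq (ZMod q) ((t : ZMod m) - (t0 : ZMod m)) = 0 := by
          have h4 := congrArg (fun u : (ZMod q)ˣ => (u : ZMod q)) ht.2
          simp only [ZMod.unitsMap_val] at h4
          rw [map_sub, sub_eq_zero, ZMod.castHom_apply, ZMod.castHom_apply]
          exact h4
        have h5 : q ∣ ((t : ZMod m) - (t0 : ZMod m)).val := by
          rw [ZMod.castHom_apply, ZMod.cast_eq_val, ZMod.natCast_eq_zero_iff] at h3
          exact h3
        obtain ⟨w, hw⟩ := h5
        have h6 : ((t : ZMod m) - (t0 : ZMod m)) * b = 0 := by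
          rw [← ZMod.natCast_zmod_val ((t : ZMod m) - (t0 : ZMod m)), hw, Nat.cast_mul,
            mul_comm (q : ZMod m), mul_assoc, ← nsmul_eq_mul q b, h1, mul_zero]
        have h7 : (t : ZMod m) * b = (t0 : ZMod m) * b := by
          rw [sub_mul, sub_eq_zero] at h6
          exact h6
        rw [h7]
      rw [hfac, sum_congr rfl h2, sum_const, nsmul_eq_mul, stdAddChar_val, mul_assoc, ← ex_add]
      have h8 : (((t0 : ZMod m) * b).val : ℝ) / m + -∑ i, (k i : ℝ) * x0 i = ((-z : ℤ) : ℝ) := by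
        push_cast
        linarith
      rw [h8, ex_int, mul_one, Complex.natCast_re]
      have : 0 ≤ (C.card : ℝ) * (q / R) := by positivity
      linarith
    · have h2 := norm_sum_cls_le hq t0 b R h1
      have h3 : ‖inner j‖ ≤ (C.card : ℝ) * (q / R) := by
        rw [hfac, norm_mul, norm_ex, mul_one]
        rw [← le_div_iff₀ hRr] at h2
        refine h2.trans ?_
        rw [← mul_div_assoc]
        exact div_le_div_of_nonneg_right hCcard hRr.le
      have h4 := Complex.abs_re_le_norm (inner j)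
      have h5 := neg_abs_le (inner j).re
      linarith
  have hcenter : inner (fun _ => L) = (C.card : ℂ) := by
    rw [hinner]
    simp only [sub_self, zero_mul, sum_const_zero, ex_zero, sum_const, nsmul_eq_mul, mul_one]
  -- real parts
  have hre : ∑ t ∈ C, ∏ i, kap L (X t i) = ∑ j ∈ idx N L, wts L j * (inner j).re := by
    have h1 := congrArg Complex.re hexp
    rw [Complex.ofReal_re, Complex.re_sum] at h1
    rw [h1]
    apply sum_congr rfl
    intro j _
    rw [Complex.re_ofReal_mul]
  have hlow : (C.card : ℝ) * (wts L (fun _ : Fin N => L) - q / R) ≤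
      ∑ j ∈ idx N L, wts L j * (inner j).re := by
    rw [← Finset.add_sum_erase _ _ (center_mem N L), hcenter, Complex.natCast_re]
    have h1 : ∑ j ∈ (idx N L).erase (fun _ => L), wts L j * (-((C.card : ℝ) * (q / R))) ≤
        ∑ j ∈ (idx N L).erase (fun _ => L), wts L j * (inner j).re := by
      apply Finset.sum_le_sum
      intro j hj
      exact mul_le_mul_of_nonneg_left (hin j (mem_of_mem_erase hj)) (wts_nonneg L j)
    rw [← Finset.sum_mul] at h1
    have h2 : ∑ j ∈ (idx N L).erase (fun _ => L), wts L j ≤ 1 := by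
      rw [← sum_wts N L]
      exact Finset.sum_le_sum_of_subset_of_nonneg (erase_subset _ _)
        (fun _ _ _ => wts_nonneg _ _)
    have h3 : 0 ≤ (C.card : ℝ) * (q / R) := by positivity
    have h4 : (∑ j ∈ (idx N L).erase (fun _ => L), wts L j) * ((C.card : ℝ) * (q / R)) ≤
        1 * ((C.card : ℝ) * (q / R)) := mul_le_mul_of_nonneg_right h2 h3
    nlinarith
  have hfin : (C.card : ℝ) * (wts L (fun _ : Fin N => L) - q / R) ≤ C.card * η ^ L := by
    calc _ ≤ _ := hlow
      _ = _ := hre.symm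
      _ ≤ _ := hup2
  have hfin2 := le_of_mul_le_mul_left hfin hCpos
  have h9 := le_wts_center N L hL
  linarith

end Pool.Agent.H916F
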