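import Mathlib

/-!
# Eigenlines of products of Fermat varieties

A product `X` of `k` Fermat varieties of degree `m` has eigenlines `V(a)` indexed by tuples `a` of
residues modulo `m`, cut into `k` blocks; if there are `N` residues then the line lies in the
cohomology of degree `w = N - 2 k`, and the conjugate line `V(t a)` has Hodge type `(p, w - p)`
with `p + k = ∑ i, ⟨t a i / m⟩`.
-/

namespace Pool.Agent.H916F

/-- A character of a product of `k` Fermat varieties of degree `m`: nonzero residues `a i` modulo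
`m` such that the sum over each of the `k` blocks `{i | σ i = j}` is zero. -/
def IsTuple {N k : ℕ} (m : ℕ) (σ : Fin N → Fin k) (a : Fin N → ZMod m) : Prop :=
  (∀ i, a i ≠ 0) ∧ ∀ j, ∑ i ∈ Finset.univ.filter (fun i => σ i = j), a i = 0

/-- The point of `[0,1)^N` with coordinates the representatives of `t a_i / m`. -/
noncomputable def point {N : ℕ} (m : ℕ) (t : (ZMod m)ˣ) (a : Fin N → ZMod m) (i : Fin N) : ℝ :=
  (((t : ZMod m) * a i).val : ℝ) / m

/-- All conjugates of `a` have Hodge type `(p, w - p)` with `r ≤ p ≤ w - r`, where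
`w = N - 2 k`. -/
def HasLevel {N : ℕ} (k r m : ℕ) (a : Fin N → ZMod m) : Prop :=
  ∀ t : (ZMod m)ˣ, (k : ℝ) + r ≤ ∑ i, point m t a i ∧ ∑ i, point m t a i ≤ (N : ℝ) - k - r

/-- There are integers `c i`, not all zero, with sum zero on each block, such that for all units
`t` modulo `m` and all real `y` for which no `t a_i / m + c_i y` is an integer, the sum of the
fractional parts of these numbers lies between `k + r` and `N - k - r`. -/
def IsFibred {N k : ℕ} (r m : ℕ) (σ : Fin N → Fin k) (a : Fin N → ZMod m) : Prop :=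
  ∃ c : Fin N → ℤ, (∃ i, c i ≠ 0) ∧
    (∀ j, ∑ i ∈ Finset.univ.filter (fun i => σ i = j), c i = 0) ∧
    ∀ (t : (ZMod m)ˣ) (y : ℝ), (∀ i, Int.fract (point m t a i + c i * y) ≠ 0) →
      (k : ℝ) + r ≤ ∑ i, Int.fract (point m t a i + c i * y) ∧
      ∑ i, Int.fract (point m t a i + c i * y) ≤ (N : ℝ) - k - r

end Pool.Agent.H916F
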