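import Pool.Agent.H916F.Core

/-!
Torsion tuples all of whose conjugates lie in a closed set: they lie on finitely many
torsion cosets contained in the closed set.
-/

namespace Pool.Agent.H916F

open Finset Filter Topology

/-- The tuple `a` of residues modulo `m` lies on the torsion coset given by the saturated lattice
`Λ` (generated by vectors with entries at most `M`) and the exponent `q ≤ M`, all conjugates of
which lie in `Z`; and `Λ` contains all relations of height at most `K` of `a`. -/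
def OnCoset {N : ℕ} (K M : ℕ) (Z : Set (Fin N → ℝ)) (m : ℕ) (a : Fin N → ZMod m)
    (Λ : Submodule ℤ (Fin N → ℤ)) (q : ℕ) : Prop :=
  0 < q ∧ q ≤ M ∧
  (∃ S : Finset (Fin N → ℤ), Submodule.span ℤ (S : Set (Fin N → ℤ)) = Λ ∧
    ∀ k ∈ S, ∀ i, |k i| ≤ M) ∧
  (∀ (d : ℤ) (k : Fin N → ℤ), d ≠ 0 → d • k ∈ Λ → k ∈ Λ) ∧
  (∀ k ∈ Λ, q • (∑ i, k i • a i) = 0) ∧
  (∀ k : Fin N → ℤ, (∀ i, |k i| ≤ K) → ∑ i, k i • a i = 0 → k ∈ Λ) ∧
  ∀ (t : (ZMod m)ˣ) (v : Fin N → ℝ), (∀ k ∈ Λ, ∑ i, (k i : ℝ) * v i = 0) →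
    (fun i => (((t : ZMod m) * a i).val : ℝ) / m + v i) ∈ Z

lemma exists_params (N q : ℕ) (ε : ℝ) (hε0 : 0 < ε) (hε : ε ≤ 1 / 2) :
    ∃ L R : ℕ, 0 < L ∧ 0 < R ∧
      (q : ℝ) / R + ((1 + Real.cos (2 * Real.pi * ε)) / 2) ^ L < (1 / (2 * (L : ℝ))) ^ N := by
  set r := (1 + Real.cos (2 * Real.pi * ε)) / 2 with hr
  have hr0 : 0 ≤ r := half_nonneg ε
  have hr1 : r < 1 := by
    have hpi := Real.pi_pos
    have h1 : Real.cos (2 * Real.pi * ε) < Real.cos 0 := by
      apply Real.cos_lt_cos_of_nonneg_of_le_pi le_rfl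
      · nlinarith
      · positivity
    rw [Real.cos_zero] at h1
    rw [hr]
    linarith
  have ht := tendsto_pow_const_mul_const_pow_of_abs_lt_one N (r := r)
    (by rw [abs_of_nonneg hr0]; exact hr1)
  have hev := (ht.eventually (gt_mem_nhds (show (0 : ℝ) < 1 / 2 * (1 / 2) ^ N by positivity))).and
    (eventually_gt_atTop 0)
  obtain ⟨L, hL1, hL0⟩ := hev.exists
  have hLr : (0 : ℝ) < L := by exact_mod_cast hL0
  have h2 : r ^ L < 1 / 2 * (1 / (2 * (L : ℝ))) ^ N := by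
    have h3 : (1 / (2 * (L : ℝ))) ^ N = (1 / 2) ^ N * (1 / (L : ℝ) ^ N) := by
      rw [show (1 / (2 * (L : ℝ))) = (1 / 2) * (1 / L) by field_simp, mul_pow, one_div_pow (L : ℝ)]
    rw [h3, ← mul_assoc, mul_one_div, lt_div_iff₀ (by positivity)]
    linarith
  obtain ⟨R, hR⟩ := exists_nat_gt ((q : ℝ) / (1 / 2 * (1 / (2 * (L : ℝ))) ^ N))
  have hpos : (0 : ℝ) < 1 / 2 * (1 / (2 * (L : ℝ))) ^ N := by positivity
  have hR0 : (0 : ℝ) < R := lt_of_le_of_lt (by positivity) hR
  refine ⟨L, R, hL0, by exact_mod_cast hR0, ?_⟩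
  have h4 : (q : ℝ) / R < 1 / 2 * (1 / (2 * (L : ℝ))) ^ N := by
    rw [div_lt_iff₀ hR0]
    rw [div_lt_iff₀ hpos] at hR
    linarith
  linarith

/-- along an ultrafilter a function with finitely many values is constant -/
lemma eventually_const {α : Type*} (U : Ultrafilter ℕ) (f : ℕ → α) (F : Set α) (hF : F.Finite)
    (h : ∀ᶠ n in (U : Filter ℕ), f n ∈ F) : ∃ x ∈ F, ∀ᶠ n in (U : Filter ℕ), f n = x := by
  have h1 : ∀ᶠ n in (U : Filter ℕ), ∃ x ∈ F, f n = x := by
    filter_upwards [h] with n hn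
    exact ⟨f n, hn, rfl⟩
  exact (Ultrafilter.eventually_exists_mem_iff hF).mp h1

lemma coe_eq_of_toAddCircle {m m' : ℕ} [NeZero m] [NeZero m'] (t : (ZMod m)ˣ) (t' : (ZMod m')ˣ)
    (q : ℕ) (hq : q ∣ m) (hq' : q ∣ m')
    (htt : ZMod.castHom hq (ZMod q) (t : ZMod m) = ZMod.castHom hq' (ZMod q) (t' : ZMod m'))
    (s : ZMod m) (s' : ZMod m') (hs : q • s = 0)
    (hss : ZMod.toAddCircle s = ZMod.toAddCircle s') :
    ZMod.toAddCircle ((t : ZMod m) * s) = ZMod.toAddCircle ((t' : ZMod m') * s') := by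
  have h1 : (t : ZMod m) * s = ((t : ZMod m).val) • s := by
    rw [nsmul_eq_mul, ZMod.natCast_zmod_val]
  have h2 : (t' : ZMod m') * s' = ((t' : ZMod m').val) • s' := by
    rw [nsmul_eq_mul, ZMod.natCast_zmod_val]
  rw [h1, h2, map_nsmul, map_nsmul, ← hss]
  set u := ZMod.toAddCircle s with hu
  have h3 : q • u = 0 := by rw [hu, ← map_nsmul, hs, map_zero]
  rw [ZMod.castHom_apply, ZMod.castHom_apply, ZMod.cast_eq_val, ZMod.cast_eq_val,
    ZMod.natCast_eq_natCast_iff] at htt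
  have h4 : ∀ a b : ℕ, a ≡ b [MOD q] → a • u = b • u := by
    have h5 : ∀ a b : ℕ, a ≤ b → a ≡ b [MOD q] → a • u = b • u := by
      intro a b hab h
      rw [Nat.modEq_iff_dvd' hab] at h
      obtain ⟨w, hw⟩ := h
      have : b = a + w * q := by rw [mul_comm w]; omega
      rw [this, add_smul, mul_smul, h3, smul_zero, add_zero]
    intro a b h
    rcases le_total a b with hab | hab
    · exact h5 a b hab h
    · exact (h5 b a hab h.symm).symm
  exact h4 _ _ htt

/-- torsion tuples all of whose conjugates lie in a closed set lie on finitely many torsion cosets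
contained in the set -/
theorem family (N K : ℕ) (Z : Set (Fin N → ℝ)) (hZ : IsClosed Z)
    (hper : ∀ (x : Fin N → ℝ) (z : Fin N → ℤ), x ∈ Z → (fun i => x i + z i) ∈ Z) :
    ∃ M : ℕ, ∀ m : ℕ, 0 < m → ∀ a : Fin N → ZMod m,
      (∀ t : (ZMod m)ˣ, (fun i => (((t : ZMod m) * a i).val : ℝ) / m) ∈ Z) →
      ∃ (Λ : Submodule ℤ (Fin N → ℤ)) (q : ℕ), OnCoset K M Z m a Λ q := by
  classical
  by_contra hcon
  push Not at hcon
  choose m hm a ha hno using hcon
  have hne : ∀ n, NeZero (m n) := fun n => ⟨(hm n).ne'⟩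
  set U : Ultrafilter ℕ := hyperfilter ℕ with hU
  -- the linear forms
  let s : (n : ℕ) → (Fin N → ℤ) → ZMod (m n) := fun n k => ∑ i, k i • a n i
  have s_add : ∀ n k l, s n (k + l) = s n k + s n l := by
    intro n k l
    simp only [s, Pi.add_apply, add_smul, Finset.sum_add_distrib]
  have s_smul : ∀ n (d : ℤ) k, s n (d • k) = d • s n k := by
    intro n d k
    simp only [s, Pi.smul_apply, smul_eq_mul, mul_smul, Finset.smul_sum]
  have s_zero : ∀ n, s n 0 = 0 := by
    intro n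
    simp [s]
  -- the lattice
  let Λ : Submodule ℤ (Fin N → ℤ) :=
    { carrier := {k | ∃ Q : ℕ, 0 < Q ∧ ∀ᶠ n in (U : Filter ℕ), Q • s n k = 0}
      zero_mem' := ⟨1, one_pos, Eventually.of_forall fun n => by rw [s_zero, smul_zero]⟩
      add_mem' := by
        rintro k l ⟨Q1, h1, h1'⟩ ⟨Q2, h2, h2'⟩
        refine ⟨Q1 * Q2, Nat.mul_pos h1 h2, ?_⟩
        filter_upwards [h1', h2'] with n hn1 hn2
        rw [s_add, smul_add, mul_smul Q1 Q2 (s n l), hn2, smul_zero, add_zero, mul_comm, mul_smul,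
          hn1, smul_zero]
      smul_mem' := by
        rintro d k ⟨Q, h, h'⟩
        refine ⟨Q, h, ?_⟩
        filter_upwards [h'] with n hn
        rw [s_smul, smul_comm, hn, smul_zero] }
  have hsat : ∀ (d : ℤ) (k : Fin N → ℤ), d ≠ 0 → d • k ∈ Λ → k ∈ Λ := by
    rintro d k hd ⟨Q, h, h'⟩
    refine ⟨Q * d.natAbs, Nat.mul_pos h (Int.natAbs_pos.mpr hd), ?_⟩
    filter_upwards [h'] with n hn
    rw [s_smul] at hn
    have h2 : d.natAbs • s n k = d • s n k ∨ d.natAbs • s n k = -(d • s n k) := by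
      rcases Int.natAbs_eq d with hd' | hd'
      · left
        rw [← natCast_zsmul]
        congr 1
        exact hd'.symm
      · right
        rw [← natCast_zsmul, ← neg_smul]
        congr 1
        omega
    rw [mul_smul]
    rcases h2 with h2 | h2
    · rw [h2, hn]
    · rw [h2, smul_neg, hn, neg_zero]
  obtain ⟨S, hS⟩ : Λ.FG := IsNoetherian.noetherian Λ
  have hSΛ : ∀ k ∈ S, k ∈ Λ := fun k hk => by
    rw [← hS]
    exact Submodule.subset_span (Finset.mem_coe.mpr hk)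
  -- a common annihilator
  have hQ : ∃ Q : ℕ, 0 < Q ∧ ∀ᶠ n in (U : Filter ℕ), ∀ k ∈ S, Q • s n k = 0 := by
    have h1 : ∀ T : Finset (Fin N → ℤ), (∀ k ∈ T, k ∈ Λ) →
        ∃ Q : ℕ, 0 < Q ∧ ∀ᶠ n in (U : Filter ℕ), ∀ k ∈ T, Q • s n k = 0 := by
      intro T
      induction T using Finset.induction_on with
      | empty => intro _; exact ⟨1, one_pos, Eventually.of_forall fun n k hk => by simp at hk⟩
      | insert b T hb ih =>
        intro hT
        obtain ⟨Q1, h1, h1'⟩ := ih fun k hk => hT k (mem_insert_of_mem hk)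
        obtain ⟨Q2, h2, h2'⟩ := hT b (mem_insert_self b T)
        refine ⟨Q1 * Q2, Nat.mul_pos h1 h2, ?_⟩
        filter_upwards [h1', h2'] with n hn1 hn2
        intro k hk
        rcases mem_insert.mp hk with rfl | hk
        · rw [mul_smul, hn2, smul_zero]
        · rw [mul_comm, mul_smul, hn1 k hk, smul_zero]
    exact h1 S hSΛ
  obtain ⟨Q, hQ0, hQ⟩ := hQ
  -- the exponent `q`
  obtain ⟨q, hqF, hq⟩ := eventually_const U (fun n => Nat.gcd Q (m n)) {x | x ≤ Q}
    (Set.finite_le_nat Q) (Eventually.of_forall fun n => Nat.le_of_dvd hQ0 (Nat.gcd_dvd_left _ _))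
  have hspan : ∀ n, (∀ k ∈ S, q • s n k = 0) → ∀ k ∈ Λ, q • s n k = 0 := by
    intro n hn k hk
    rw [← hS] at hk
    induction hk using Submodule.span_induction with
    | mem x hx => exact hn x (Finset.mem_coe.mp hx)
    | zero => rw [s_zero, smul_zero]
    | add x y _ _ hx hy => rw [s_add, smul_add, hx, hy, add_zero]
    | smul d x _ hx => rw [s_smul, smul_comm, hx, smul_zero]
  have hqS : ∀ᶠ n in (U : Filter ℕ), q ∣ m n ∧ 0 < q ∧ ∀ k ∈ S, q • s n k = 0 := by
    filter_upwards [hQ, hq] with n hn hn'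
    refine ⟨hn' ▸ Nat.gcd_dvd_right _ _, hn' ▸ Nat.gcd_pos_of_pos_left _ hQ0, ?_⟩
    intro k hk
    have h1 : m n • s n k = 0 := by
      rw [nsmul_eq_mul, ZMod.natCast_self, zero_mul]
    have h2 : addOrderOf (s n k) ∣ Nat.gcd Q (m n) :=
      Nat.dvd_gcd (addOrderOf_dvd_of_nsmul_eq_zero (hn k hk)) (addOrderOf_dvd_of_nsmul_eq_zero h1)
    rw [← hn']
    exact addOrderOf_dvd_iff_nsmul_eq_zero.mp h2
  -- the position of the forms in `Λ`
  have hpos : ∀ k ∈ S, ∃ r : ℕ, ∀ᶠ n in (U : Filter ℕ), (s n k).val * q = m n * r := by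
    intro k hk
    have h1 : ∀ᶠ n in (U : Filter ℕ), (s n k).val * q / m n ∈ {x : ℕ | x ≤ q} := by
      filter_upwards [hqS] with n hn
      apply Nat.div_le_of_le_mul
      have := ZMod.val_lt (s n k)
      nlinarith
    obtain ⟨r, _, hr⟩ := eventually_const U (fun n => (s n k).val * q / m n) _
      (Set.finite_le_nat q) h1
    refine ⟨r, ?_⟩
    filter_upwards [hr, hqS] with n hn hn'
    rw [← hn]
    symm
    apply Nat.mul_div_cancel'
    have h2 := hn'.2.2 k hk
    have h3 : (((s n k).val * q : ℕ) : ZMod (m n)) = 0 := by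
      rw [Nat.cast_mul, ZMod.natCast_zmod_val, mul_comm, ← nsmul_eq_mul]
      exact h2
    rwa [ZMod.natCast_eq_zero_iff] at h3
  choose! r hr using hpos
  have hr' : ∀ᶠ n in (U : Filter ℕ), ∀ k ∈ S, (s n k).val * q = m n * r k := by
    rw [← Filter.eventually_all_finset] at hr
    exact hr
  -- the set of good indices
  have hgood : ∀ᶠ n in (U : Filter ℕ), (q ∣ m n ∧ 0 < q ∧ (∀ k ∈ Λ, q • s n k = 0)) ∧
      ∀ k ∈ S, (s n k).val * q = m n * r k := by
    filter_upwards [hqS, hr'] with n h1 h2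
    exact ⟨⟨h1.1, h1.2.1, hspan n h1.2.2⟩, h2⟩
  have hcirc : ∀ n n', (0 < q ∧ ∀ k ∈ S, (s n k).val * q = m n * r k) →
      (∀ k ∈ S, (s n' k).val * q = m n' * r k) → ∀ k ∈ Λ,
      ZMod.toAddCircle (s n k) = ZMod.toAddCircle (s n' k) := by
    intro n n' h1 h2 k hk
    have hne1 := hne n
    have hne2 := hne n'
    rw [← hS] at hk
    induction hk using Submodule.span_induction with
    | mem x hx =>
      have h3 := h1.2 x (Finset.mem_coe.mp hx)
      have h4 := h2 x (Finset.mem_coe.mp hx)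
      rw [ZMod.toAddCircle_apply, ZMod.toAddCircle_apply]
      have hq0 : (q : ℝ) ≠ 0 := by exact_mod_cast h1.1.ne'
      have hm1 : ((m n : ℕ) : ℝ) ≠ 0 := by exact_mod_cast (hm n).ne'
      have hm2 : ((m n' : ℕ) : ℝ) ≠ 0 := by exact_mod_cast (hm n').ne'
      have h5 : ((s n x).val : ℝ) * q = m n * r x := by exact_mod_cast h3
      have h6 : ((s n' x).val : ℝ) * q = m n' * r x := by exact_mod_cast h4
      congr 1
      have h7 : ((s n x).val : ℝ) / (m n : ℝ) = (r x : ℝ) / q := by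
        rw [div_eq_div_iff hm1 hq0]; linarith
      have h8 : ((s n' x).val : ℝ) / (m n' : ℝ) = (r x : ℝ) / q := by
        rw [div_eq_div_iff hm2 hq0]; linarith
      rw [h7, h8]
    | zero => rw [s_zero, s_zero, map_zero, map_zero]
    | add x y _ _ hx hy => rw [s_add, s_add, map_add, map_add, hx, hy]
    | smul d x _ hx => rw [s_smul, s_smul, map_zsmul, map_zsmul, hx]
  -- forms outside `Λ` have large order
  have hout : ∀ k, k ∉ Λ → ∀ B : ℕ, ∀ᶠ n in (U : Filter ℕ), B ≤ addOrderOf (s n k) := by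
    intro k hk B
    by_contra hcon
    rw [← Ultrafilter.eventually_not] at hcon
    apply hk
    refine ⟨B.factorial, Nat.factorial_pos B, ?_⟩
    filter_upwards [hcon] with n hn
    have hne1 := hne n
    have h1 : addOrderOf (s n k) ∣ B.factorial :=
      Nat.dvd_factorial (addOrderOf_pos _) (by omega)
    exact addOrderOf_dvd_iff_nsmul_eq_zero.mp h1
  -- small relations are in `Λ`
  have hsmall : ∀ᶠ n in (U : Filter ℕ), ∀ k : Fin N → ℤ, (∀ i, |k i| ≤ K) →
      s n k = 0 → k ∈ Λ := by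
    have h1 : ∀ k ∈ Fintype.piFinset (fun _ : Fin N => Finset.Icc (-(K : ℤ)) K),
        ∀ᶠ n in (U : Filter ℕ), s n k = 0 → k ∈ Λ := by
      intro k _
      by_cases hk : k ∈ Λ
      · exact Eventually.of_forall fun _ _ => hk
      · filter_upwards [hout k hk 2] with n hn h0
        rw [h0, addOrderOf_zero] at hn
        omega
    rw [← Filter.eventually_all_finset] at h1
    filter_upwards [h1] with n hn k hk
    apply hn k
    rw [Fintype.mem_piFinset]
    intro i
    rw [Finset.mem_Icc]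
    exact abs_le.mp (hk i)
  -- large indices
  have hlarge : ∀ B : ℕ, ∀ᶠ n in (U : Filter ℕ), B ≤ n := by
    intro B
    exact (eventually_ge_atTop B).filter_mono Nat.hyperfilter_le_atTop
  -- a bound for the generators
  obtain ⟨B, hB⟩ : ∃ B : ℕ, ∀ k ∈ S, ∀ i, |k i| ≤ B := by
    refine ⟨∑ k ∈ S, ∑ i, (k i).natAbs, ?_⟩
    intro k hk i
    have h1 : (k i).natAbs ≤ ∑ i, (k i).natAbs :=
      Finset.single_le_sum (f := fun i => (k i).natAbs) (fun _ _ => Nat.zero_le _) (mem_univ i)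
    have h2 : ∑ i, (k i).natAbs ≤ ∑ k ∈ S, ∑ i, (k i).natAbs :=
      Finset.single_le_sum (f := fun k : Fin N → ℤ => ∑ i, (k i).natAbs)
        (fun _ _ => Nat.zero_le _) hk
    rw [Int.abs_eq_natAbs]
    exact_mod_cast h1.trans h2
  -- choose the index `n`
  obtain ⟨n, ⟨hn1, hn2⟩, hn3, hn4, hn5⟩ :=
    (hgood.and (hsmall.and ((hlarge B).and (hlarge q)))).exists
  have hn : ∃ (t : (ZMod (m n))ˣ) (v : Fin N → ℝ), (∀ k ∈ Λ, ∑ i, (k i : ℝ) * v i = 0) ∧
      (fun i => (((t : ZMod (m n)) * a n i).val : ℝ) / m n + v i) ∉ Z := by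
    by_contra hcon
    push Not at hcon
    apply hno n Λ q
    refine ⟨hn1.2.1, hn5, ⟨S, hS, ?_⟩, hsat, hn1.2.2, hn3, hcon⟩
    intro k hk i
    exact (hB k hk i).trans (by exact_mod_cast hn4)
  obtain ⟨t, v, hv, hnot⟩ := hn
  set x0 : Fin N → ℝ := fun i => (((t : ZMod (m n)) * a n i).val : ℝ) / m n + v i with hx0
  -- a ball around `x0` outside `Z`
  obtain ⟨ε, hε0, hε⟩ : ∃ ε > 0, Metric.ball x0 ε ⊆ Zᶜ :=
    Metric.isOpen_iff.mp hZ.isOpen_compl x0 hnot
  set ε' := min ε (1 / 2) with hε'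
  have hε'0 : 0 < ε' := lt_min hε0 (by norm_num)
  obtain ⟨L, R, hL, hR, hLR⟩ := exists_params N q ε' hε'0 (min_le_right _ _)
  -- choose the index `n'`
  have hbox : ∀ᶠ n' in (U : Filter ℕ), ∀ k : Fin N → ℤ, (∀ i, |k i| ≤ L) →
      k ∈ Λ ∨ 2 * q * R ^ 2 ≤ addOrderOf (s n' k) := by
    have h1 : ∀ k ∈ Fintype.piFinset (fun _ : Fin N => Finset.Icc (-(L : ℤ)) L),
        ∀ᶠ n' in (U : Filter ℕ), k ∈ Λ ∨ 2 * q * R ^ 2 ≤ addOrderOf (s n' k) := by
      intro k _
      by_cases hk : k ∈ Λ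
      · exact Eventually.of_forall fun _ => Or.inl hk
      · filter_upwards [hout k hk (2 * q * R ^ 2)] with n' hn'
        exact Or.inr hn'
    rw [← Filter.eventually_all_finset] at h1
    filter_upwards [h1] with n' hn' k hk
    apply hn' k
    rw [Fintype.mem_piFinset]
    intro i
    rw [Finset.mem_Icc]
    exact abs_le.mp (hk i)
  obtain ⟨n', ⟨hn1', hn2'⟩, hn3'⟩ := (hgood.and hbox).exists
  have hne1 := hne n
  have hne2 := hne n'
  have hqne : NeZero q := ⟨hn1.2.1.ne'⟩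
  obtain ⟨t0, ht0⟩ := ZMod.unitsMap_surjective hn1'.1 (ZMod.unitsMap hn1.1 t)
  have htt : ZMod.castHom hn1.1 (ZMod q) (t : ZMod (m n)) =
      ZMod.castHom hn1'.1 (ZMod q) (t0 : ZMod (m n')) := by
    have h4 := congrArg (fun u : (ZMod q)ˣ => (u : ZMod q)) ht0
    simp only [ZMod.unitsMap_val] at h4
    rw [ZMod.castHom_apply, ZMod.castHom_apply]
    exact h4.symm
  obtain ⟨t', ht'⟩ := core L q R ε' hL hn1'.1 hR hε'0.le hLR (a n') t0 x0 (by
    intro k hk
    rcases hn3' k hk with h1 | h1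
    · left
      refine ⟨hn1'.2.2 k h1, ?_⟩
      have h2 : ZMod.toAddCircle ((t : ZMod (m n)) * s n k) =
          ZMod.toAddCircle ((t0 : ZMod (m n')) * s n' k) :=
        coe_eq_of_toAddCircle t t0 q hn1.1 hn1'.1 htt (s n k) (s n' k) (hn1.2.2 k h1)
          (hcirc n n' ⟨hn1.2.1, hn2⟩ hn2' k h1)
      have h3 : ((∑ i, (k i : ℝ) * x0 i : ℝ) : UnitAddCircle) =
          ZMod.toAddCircle ((t : ZMod (m n)) * s n k) := by
        have h4 : ∑ i, (k i : ℝ) * x0 i =
            ∑ i, (k i : ℝ) * ((((t : ZMod (m n)) * a n i).val : ℝ) / m n) := by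
          simp only [hx0, mul_add, Finset.sum_add_distrib, hv k h1, add_zero]
        have h5 : (t : ZMod (m n)) * s n k = ∑ i, k i • ((t : ZMod (m n)) * a n i) := by
          simp only [s]
          rw [Finset.mul_sum]
          apply Finset.sum_congr rfl
          intro i _
          rw [mul_smul_comm]
        rw [h4, h5, map_sum]
        have h6 : ∀ i, ZMod.toAddCircle (k i • ((t : ZMod (m n)) * a n i)) =
            (((k i : ℝ) * ((((t : ZMod (m n)) * a n i).val : ℝ) / m n) : ℝ) : UnitAddCircle) := by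
          intro i
          rw [map_zsmul, ZMod.toAddCircle_apply, ← AddCircle.coe_zsmul, zsmul_eq_mul]
        rw [Finset.sum_congr rfl (fun i _ => h6 i)]
        exact map_sum (QuotientAddGroup.mk' (AddSubgroup.zmultiples (1 : ℝ))) _ _
      rw [h2, ZMod.toAddCircle_apply] at h3
      have h7 : ((∑ i, (k i : ℝ) * x0 i -
          ((((t0 : ZMod (m n')) * s n' k).val : ℝ) / m n') : ℝ) : UnitAddCircle) = 0 := by
        rw [AddCircle.coe_sub, h3, sub_self]
      rw [AddCircle.coe_eq_zero_iff] at h7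
      obtain ⟨z, hz⟩ := h7
      refine ⟨z, ?_⟩
      rw [← hz]
      simp
    · right
      exact h1)
  choose z hz using ht'
  have h1 := hper _ (fun i => -z i) (ha n' t')
  have h2 : (fun i => (((t' : ZMod (m n')) * a n' i).val : ℝ) / m n' + ((-z i : ℤ) : ℝ)) ∈
      Metric.ball x0 ε := by
    rw [Metric.mem_ball, dist_pi_lt_iff hε0]
    intro i
    rw [Real.dist_eq]
    have h3 := hz i
    have h4 : (((t' : ZMod (m n')) * a n' i).val : ℝ) / m n' + ((-z i : ℤ) : ℝ) - x0 i =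
        ((((t' : ZMod (m n')) * a n' i).val : ℝ) / m n' - x0 i) - z i := by
      push_cast
      ring
    rw [h4]
    exact h3.trans_le (min_le_left _ _)
  exact hε h2 h1

end Pool.Agent.H916F
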