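import Pool.Agent.H916R2.Defs

/-!
# Sporadic characters
-/

namespace Pool.Agent.H916F

open Pool.Agent.H916R2

/-- The characters of degree `m'` which are pulled back (multiplication by `m' / d`) from a Hodge
character with at most `N` entries of a degree `d ≤ M` with `d ∣ lcm 2 m`, where `d` is even and
not one of the good degrees. -/
def Sporadic (N M m m' : ℕ) (s : Multiset (ZMod m')) : Prop :=
  ∃ d : ℕ, 0 < d ∧ d ≤ M ∧ 2 ∣ d ∧ d ∣ Nat.lcm 2 m ∧ ¬ GoodDegree d ∧
    ∃ s0 : Multiset (ZMod d), IsHodge d s0 ∧ Multiset.card s0 ≤ N ∧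
      s = s0.map fun b => (((m' / d) * b.val : ℕ) : ZMod m')

end Pool.Agent.H916F
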