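import Pool.Agent.H916F.Vanish
import Pool.Agent.H916F.FiniteDefs
import Pool.Agent.H916R2.Families

/-!
Finiteness for the Hodge characters of Fermat varieties of bounded dimension.
-/

namespace Pool.Agent.H916F

open Finset Pool.Agent.H916R2

lemma sum_generated {m : ℕ} [NeZero m] {base : Multiset (ZMod m) → Prop} {Q : Type*}
    [AddCommGroup Q] {g : ZMod m → Q} (hg : OddDist g)
    (hb : ∀ s, base s → (s.map g).sum = 0) {s : Multiset (ZMod m)} (h : Generated m base s) :
    (s.map g).sum = 0 := by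
  induction h with
  | ofBase s hs => exact hb s hs
  | pair a ha =>
    simp only [Multiset.insert_eq_cons, Multiset.map_cons, Multiset.map_singleton,
      Multiset.sum_cons, Multiset.sum_singleton]
    rw [hg.neg, add_neg_cancel]
  | standard p hp hp2 hpm a ha =>
    have h1 := hg.dist p (m / p) hp (Nat.mul_div_cancel' hpm) a
    rw [Multiset.map_cons, Multiset.sum_cons, Multiset.map_map, hg.neg, ← h1]
    exact neg_add_cancel _
  | standardTwo hm a ha =>
    have h1 := hg.dist 2 (m / 2) Nat.prime_two (Nat.mul_div_cancel' hm) a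
    have hhh : ((m / 2 : ℕ) : ZMod m) + ((m / 2 : ℕ) : ZMod m) = 0 := by
      have : ((2 * (m / 2) : ℕ) : ZMod m) = 0 := by rw [Nat.mul_div_cancel' hm]; simp
      rw [← two_mul]; push_cast at this; exact this
    simp only [Multiset.insert_eq_cons, Multiset.map_cons, Multiset.map_singleton,
      Multiset.sum_cons, Multiset.sum_singleton]
    rw [hg.half _ hhh, add_zero, hg.neg]
    rw [sum_range_succ, sum_range_one] at h1
    simp only [Nat.cast_zero, zero_mul, add_zero, Nat.cast_one, one_mul, Nat.cast_ofNat] at h1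
    rw [← h1]
    abel
  | join s t _ _ hs ht => rw [Multiset.map_add, Multiset.sum_add, hs, ht, add_zero]
  | cancel a s _ ih =>
    rw [Multiset.map_cons, Multiset.map_cons, Multiset.sum_cons, Multiset.sum_cons, hg.neg] at ih
    rw [← ih]
    abel

lemma exists_tuple {α : Type*} (s : Multiset α) :
    ∃ a : Fin (Multiset.card s) → α, s = (univ : Finset (Fin (Multiset.card s))).val.map a := by
  induction s using Quot.inductionOn with
  | h l =>
    refine ⟨l.get, ?_⟩
    show ((l : List α) : Multiset α) = (univ : Finset (Fin l.length)).val.map l.get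
    rw [Fin.univ_val_map, List.ofFn_get]

theorem main (N : ℕ) : ∃ M K : ℕ, 0 < K ∧ ∀ m : ℕ, 0 < m → ∀ s : Multiset (ZMod m),
    IsHodge m s → s ≠ 0 → Multiset.card s ≤ N →
    Generated (K * m) (fun s' => SurfaceCharacter (K * m) s' ∨ Sporadic N M m (K * m) s')
      (s.map fun b => ((K * b.val : ℕ) : ZMod (K * m))) := by
  classical
  obtain ⟨M, K0, hK0, hv⟩ := vanish (N / 2)
  refine ⟨M, 2 * K0, by omega, ?_⟩
  intro m hm s hs hs0 hcard
  have hne : NeZero m := ⟨hm.ne'⟩
  set K := 2 * K0 with hK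
  set m' := K * m with hm'
  have hKpos : 0 < K := by omega
  have hne' : NeZero m' := ⟨(Nat.mul_pos hKpos hm).ne'⟩
  set m1 := Nat.lcm 2 m with hm1
  have hm1pos : 0 < m1 := Nat.lcm_pos (by norm_num) hm
  have hne1 : NeZero m1 := ⟨hm1pos.ne'⟩
  -- the intermediate level
  obtain ⟨k1, K1, hk1, hK1, hK01, hK1pos⟩ : ∃ k1 K1 : ℕ, k1 * m = m1 ∧ K1 * k1 = K ∧ K0 ∣ K1 ∧
      0 < K1 := by
    by_cases h2 : 2 ∣ m
    · refine ⟨1, K, ?_, by ring, Dvd.intro_left 2 rfl, hKpos⟩
      rw [hm1, Nat.lcm_eq_right h2, one_mul]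
    · refine ⟨2, K0, ?_, by rw [hK]; ring, dvd_rfl, hK0⟩
      rw [hm1, Nat.Coprime.lcm_eq_mul]
      exact (Nat.Prime.coprime_iff_not_dvd Nat.prime_two).mpr h2
  have hK1m : K1 * m1 = m' := by rw [← hk1, ← mul_assoc, hK1]
  set base : Multiset (ZMod m') → Prop := fun s' => SurfaceCharacter m' s' ∨ Sporadic N M m m' s'
    with hbase
  have hdm' : ∀ d, d ∣ m1 → (m' / d) * d = m' := fun d hd =>
    Nat.div_mul_cancel (hd.trans (Dvd.intro_left K1 hK1m))
  have hb : ∀ s, base s → (0 : ZMod m') ∉ s ∧ Even (Multiset.card s) := by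
    rintro s (h | ⟨d, hd0, _, _, hdm, _, s0, hs0, _, rfl⟩)
    · exact ⟨h.1.1, h.1.2.1⟩
    · have hned : NeZero d := ⟨hd0.ne'⟩
      have h1 := hs0.iota (hdm' d hdm)
      exact ⟨h1.1, h1.2.1⟩
  have hbn : ∀ s, base s → base (s.map Neg.neg) := by
    rintro s (h | ⟨d, hd0, hdM, h2d, hdm, hgood, s0, hs0, hcs0, rfl⟩)
    · left
      exact ⟨h.1.neg, by rw [Multiset.card_map]; exact h.2⟩
    · right
      have hned : NeZero d := ⟨hd0.ne'⟩
      refine ⟨d, hd0, hdM, h2d, hdm, hgood, s0.map Neg.neg, hs0.neg,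
        by rw [Multiset.card_map]; exact hcs0, ?_⟩
      rw [Multiset.map_map, Multiset.map_map]
      apply Multiset.map_congr rfl
      intro b _
      exact (iota_neg (hdm' d hdm) b).symm
  -- the universal distribution
  have hf := cQ_oddDist (m := m') (base := base)
  have hsmall : ∀ d : ℕ, 0 < d → d ≤ M → 2 ∣ d → d ∣ m1 → ∀ s0 : Multiset (ZMod d),
      IsHodge d s0 → Multiset.card s0 ≤ 2 * (N / 2) →
      (s0.map fun b => cQ m' base (iota (m' / d) b)).sum = 0 := by
    intro d hd0 hdM h2d hdm s0 hs0 hcs0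
    have hned : NeZero d := ⟨hd0.ne'⟩
    by_cases hgood : GoodDegree d
    · by_cases hz : s0 = 0
      · rw [hz]; simp
      · have hgen := Families.main d hd0 hgood s0 hs0 hz
        apply sum_generated (hf.comp_iota (hdm' d hdm)) _ hgen
        rintro s4 ⟨h4, hc4⟩
        have h5 := cQ_sum_eq_zero (Generated.ofBase (m := m') (base := base)
          (s4.map (iota (m' / d) : ZMod d → ZMod m'))
          (Or.inl ⟨h4.iota (hdm' d hdm), by rw [Multiset.card_map]; exact hc4⟩))
        rw [Multiset.map_map] at h5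
        exact h5
    · have h5 := cQ_sum_eq_zero (Generated.ofBase (m := m') (base := base)
          (s0.map (iota (m' / d) : ZMod d → ZMod m'))
          (Or.inr ⟨d, hd0, hdM, h2d, hdm, hgood, s0, hs0, by omega, rfl⟩))
      rw [Multiset.map_map] at h5
      exact h5
  -- apply the vanishing theorem
  have hs1 := hs.iota hk1
  obtain ⟨a, ha⟩ := exists_tuple (s.map (iota k1 : ZMod m → ZMod m1))
  have hcs : Multiset.card (s.map (iota k1 : ZMod m → ZMod m1)) ≤ 2 * (N / 2) := by
    rw [Multiset.card_map]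
    obtain ⟨w, hw⟩ := hs.2.1
    omega
  have hsum : ∀ {R : Type} [AddCommGroup R] (g : ZMod m1 → R),
      ((s.map (iota k1 : ZMod m → ZMod m1)).map g).sum = ∑ i, g (a i) := by
    intro R _ g
    conv_lhs => rw [ha]
    rw [Multiset.map_map]
    rfl
  have hvan := hv m1 m' K1 hm1pos (Nat.dvd_lcm_left 2 m) hK1pos hK01 hK1m _ (cQ m' base) hf
    hsmall _ hcs a (by
      intro i h
      apply hs1.1
      rw [ha, ← h]
      exact Multiset.mem_map_of_mem _ (Finset.mem_univ i)) (by
      intro t
      rw [← hsum (fun x => saw ((t : ZMod m1) * x))]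
      exact hs1.saw_sum t)
  rw [← hsum (fun x => cQ m' base (iota K1 x)), Multiset.map_map] at hvan
  have hfinal : ((s.map (iota K : ZMod m → ZMod m')).map (cQ m' base)).sum = 0 := by
    rw [← hvan, Multiset.map_map]
    congr 1
    apply Multiset.map_congr rfl
    intro b _
    simp only [Function.comp_apply]
    rw [iota_comp hK1m, hK1]
  rw [cQ_sum, QuotientAddGroup.eq_zero_iff] at hfinal
  have hsK := hs.iota (m := m') (k := K) rfl
  exact generated_of_mem_LL hb hbn hsK.1 hsK.2.1 (by
    intro h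
    exact hs0 (Multiset.map_eq_zero.mp h)) hfinal

end Pool.Agent.H916F
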