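import Mathlib

/-!
Jumps of a sum of fractional parts of linear functions which is constant.
-/

namespace Pool.Agent.H916F

open Finset Filter Topology

/-- the margin of a real number -/
noncomputable def margin (w : ℝ) : ℝ :=
  if Int.fract w = 0 then 1 else min (Int.fract w) (1 - Int.fract w)

lemma margin_pos (w : ℝ) : 0 < margin w := by
  unfold margin
  split_ifs with h
  · exact one_pos
  · apply lt_min
    · exact lt_of_le_of_ne (Int.fract_nonneg w) (Ne.symm h)
    · linarith [Int.fract_lt_one w]

lemma fract_add_small {w e : ℝ} (h : Int.fract w ≠ 0) (he : |e| < margin w) :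
    Int.fract (w + e) = Int.fract w + e := by
  unfold margin at he
  rw [if_neg h] at he
  have h1 := (abs_lt.mp (lt_of_lt_of_le he (min_le_left _ _)))
  have h2 := (abs_lt.mp (lt_of_lt_of_le he (min_le_right _ _)))
  rw [Int.fract_eq_iff]
  refine ⟨by linarith, by linarith, ⌊w⌋, ?_⟩
  have := Int.floor_add_fract w
  linarith

lemma fract_int_add_pos {w e : ℝ} (h : Int.fract w = 0) (he0 : 0 < e) (he : e < 1) :
    Int.fract (w + e) = e := by
  rw [Int.fract_eq_iff]
  refine ⟨he0.le, he, ⌊w⌋, ?_⟩
  have := Int.floor_add_fract w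
  rw [h] at this
  linarith

lemma fract_int_sub_pos {w e : ℝ} (h : Int.fract w = 0) (he0 : 0 < e) (he : e < 1) :
    Int.fract (w - e) = 1 - e := by
  rw [Int.fract_eq_iff]
  refine ⟨by linarith, by linarith, ⌊w⌋ - 1, ?_⟩
  have := Int.floor_add_fract w
  rw [h] at this
  push_cast
  linarith

/-- the difference of the values on both sides -/
lemma jump_term {w δ : ℝ} {c : ℤ} (hδ : 0 < δ) (hc : |(c : ℝ)| * δ < margin w)
    (h0 : c = 0 → Int.fract w ≠ 0) :
    Int.fract (w + c * δ) ≠ 0 ∧ Int.fract (w - c * δ) ≠ 0 ∧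
    Int.fract (w + c * δ) - Int.fract (w - c * δ) = 2 * c * δ -
      (if 0 < c ∧ Int.fract w = 0 then 1 else 0) + (if c < 0 ∧ Int.fract w = 0 then 1 else 0) := by
  by_cases hw : Int.fract w = 0
  · have hm : margin w = 1 := by unfold margin; rw [if_pos hw]
    rw [hm] at hc
    rcases lt_trichotomy c 0 with hc0 | hc0 | hc0
    · have hcr : (c : ℝ) < 0 := by exact_mod_cast hc0
      rw [abs_of_neg hcr] at hc
      have hpos : 0 < -(c : ℝ) * δ := mul_pos (by linarith) hδ
      have e1 : w + c * δ = w - (-(c : ℝ) * δ) := by ring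
      have e2 : w - c * δ = w + (-(c : ℝ) * δ) := by ring
      rw [e1, e2, fract_int_sub_pos hw hpos hc, fract_int_add_pos hw hpos hc]
      rw [if_neg (by intro h; omega), if_pos ⟨hc0, hw⟩]
      refine ⟨by linarith, by linarith, by ring⟩
    · exact absurd hw (h0 hc0)
    · have hcr : 0 < (c : ℝ) := by exact_mod_cast hc0
      rw [abs_of_pos hcr] at hc
      have hpos : 0 < (c : ℝ) * δ := mul_pos hcr hδ
      rw [fract_int_add_pos hw hpos hc, fract_int_sub_pos hw hpos hc]
      rw [if_pos ⟨hc0, hw⟩, if_neg (by intro h; omega)]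
      refine ⟨by linarith, by linarith, by ring⟩
  · have e1 : |(c : ℝ) * δ| < margin w := by rw [abs_mul, abs_of_pos hδ]; exact hc
    have e2 : |-((c : ℝ) * δ)| < margin w := by rw [abs_neg]; exact e1
    have h1 := fract_add_small hw e1
    have h2 := fract_add_small hw e2
    have hm : margin w = min (Int.fract w) (1 - Int.fract w) := by unfold margin; rw [if_neg hw]
    rw [hm] at e1 e2
    have b1 := abs_lt.mp (lt_of_lt_of_le e1 (min_le_left _ _))
    have b2 := abs_lt.mp (lt_of_lt_of_le e2 (min_le_left _ _))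
    rw [← sub_eq_add_neg] at h2
    rw [h1, h2, if_neg (by intro h; exact hw h.2), if_neg (by intro h; exact hw h.2)]
    refine ⟨by linarith, by linarith, by ring⟩

/-- A constant sum of fractional parts has as many upward as downward jumps at every point. -/
theorem jump {N : ℕ} (x : Fin N → ℝ) (c : Fin N → ℤ) (C : ℝ)
    (hS : ∀ y : ℝ, (∀ i, Int.fract (x i + c i * y) ≠ 0) → ∑ i, Int.fract (x i + c i * y) = C)
    (hx : ∀ i, Int.fract (x i) ≠ 0) (y0 : ℝ) :
    (Finset.univ.filter fun i => 0 < c i ∧ Int.fract (x i + c i * y0) = 0).card =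
      (Finset.univ.filter fun i => c i < 0 ∧ Int.fract (x i + c i * y0) = 0).card := by
  classical
  set w : Fin N → ℝ := fun i => x i + c i * y0 with hw
  obtain ⟨δ, hδ0, hδ⟩ : ∃ δ : ℝ, 0 < δ ∧ ∀ i, |(c i : ℝ)| * δ < margin (w i) := by
    have h1 : ∀ i, ∀ᶠ δ in 𝓝[>] (0 : ℝ), |(c i : ℝ)| * δ < margin (w i) := by
      intro i
      have h2 : Tendsto (fun δ : ℝ => |(c i : ℝ)| * δ) (𝓝[>] 0) (𝓝 (|(c i : ℝ)| * 0)) :=
        (tendsto_const_nhds.mul tendsto_id).mono_left nhdsWithin_le_nhds
      rw [mul_zero] at h2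
      exact h2.eventually (gt_mem_nhds (margin_pos (w i)))
    have h2 := (Filter.eventually_all.mpr h1).and self_mem_nhdsWithin
    obtain ⟨δ, hδ1, hδ2⟩ := h2.exists
    exact ⟨δ, hδ2, hδ1⟩
  -- the identity for small `e`
  have key : ∀ e : ℝ, 0 < e → e ≤ δ → 2 * (∑ i, (c i : ℝ)) * e =
      ((Finset.univ.filter fun i => 0 < c i ∧ Int.fract (w i) = 0).card : ℝ) -
      ((Finset.univ.filter fun i => c i < 0 ∧ Int.fract (w i) = 0).card : ℝ) := by
    intro e he0 he
    have hterm := fun i => jump_term (w := w i) (c := c i) he0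
      (lt_of_le_of_lt (mul_le_mul_of_nonneg_left he (abs_nonneg _)) (hδ i))
      (fun h => by simp only [hw, h, Int.cast_zero, zero_mul, add_zero]; exact hx i)
    have h1 : ∑ i, Int.fract (w i + c i * e) = C := by
      have h2 := hS (y0 + e) (by
        intro i
        have : x i + c i * (y0 + e) = w i + c i * e := by simp only [hw]; ring
        rw [this]
        exact (hterm i).1)
      rw [← h2]
      apply Finset.sum_congr rfl
      intro i _
      congr 1
      simp only [hw]; ring
    have h2 : ∑ i, Int.fract (w i - c i * e) = C := by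
      have h2 := hS (y0 - e) (by
        intro i
        have : x i + c i * (y0 - e) = w i - c i * e := by simp only [hw]; ring
        rw [this]
        exact (hterm i).2.1)
      rw [← h2]
      apply Finset.sum_congr rfl
      intro i _
      congr 1
      simp only [hw]; ring
    have h3 : ∑ i, (Int.fract (w i + c i * e) - Int.fract (w i - c i * e)) = 0 := by
      rw [Finset.sum_sub_distrib, h1, h2, sub_self]
    rw [Finset.sum_congr rfl (fun i _ => (hterm i).2.2), Finset.sum_add_distrib,
      Finset.sum_sub_distrib, ← Finset.sum_filter, ← Finset.sum_filter, Finset.sum_const,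
      Finset.sum_const, nsmul_eq_mul, nsmul_eq_mul, mul_one, mul_one, ← Finset.sum_mul,
      ← Finset.mul_sum] at h3
    linarith
  have h1 := key δ hδ0 le_rfl
  have h2 := key (δ / 2) (by linarith) (by linarith)
  have h3 : ((Finset.univ.filter fun i => 0 < c i ∧ Int.fract (w i) = 0).card : ℝ) =
      ((Finset.univ.filter fun i => c i < 0 ∧ Int.fract (w i) = 0).card : ℝ) := by
    linarith
  exact_mod_cast h3

end Pool.Agent.H916F
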