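import Pool.Agent.H916F.Pencils
import Pool.Agent.H916F.Jump
import Pool.Agent.H916F.Compose

/-!
The family theorem for Hodge characters, and the count of solutions on a line.
-/

namespace Pool.Agent.H916F

open Finset Pool.Agent.H916R2

lemma exists_normal_bounded (N M : ℕ) : ∃ B : ℕ, ∀ Λ : Submodule ℤ (Fin N → ℤ),
    (∃ S : Finset (Fin N → ℤ), Submodule.span ℤ (S : Set (Fin N → ℤ)) = Λ ∧
      ∀ k ∈ S, ∀ i, |k i| ≤ M) →
    (∀ (d : ℤ) (k : Fin N → ℤ), d ≠ 0 → d • k ∈ Λ → k ∈ Λ) → Λ ≠ ⊤ →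
    ∃ c : Fin N → ℤ, (∃ i, c i ≠ 0) ∧ (∀ i, |c i| ≤ B) ∧ ∀ k ∈ Λ, ∑ i, k i * c i = 0 := by
  classical
  let P : Finset (Fin N → ℤ) → (Fin N → ℤ) → Prop := fun S c =>
    (∃ i, c i ≠ 0) ∧ ∀ k ∈ Submodule.span ℤ (S : Set (Fin N → ℤ)), ∑ i, k i * c i = 0
  let g : Finset (Fin N → ℤ) → ℕ := fun S =>
    if h : ∃ c, P S c then ∑ i, (h.choose i).natAbs else 0
  let box : Finset (Fin N → ℤ) := Fintype.piFinset (fun _ : Fin N => Finset.Icc (-(M : ℤ)) M)
  refine ⟨∑ S ∈ box.powerset, g S, ?_⟩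
  rintro Λ ⟨S, hS, hSM⟩ hsat hne
  obtain ⟨c0, hc0, hc0'⟩ := exists_normal Λ hsat hne
  have hex : ∃ c, P S c := ⟨c0, hc0, by rw [hS]; exact hc0'⟩
  have hSbox : S ∈ box.powerset := by
    rw [Finset.mem_powerset]
    intro k hk
    rw [Fintype.mem_piFinset]
    intro i
    rw [Finset.mem_Icc]
    exact abs_le.mp (hSM k hk i)
  have h1 := hex.choose_spec
  refine ⟨hex.choose, h1.1, ?_, by rw [← hS]; exact h1.2⟩
  intro i
  have h2 : (hex.choose i).natAbs ≤ g S := by
    have : g S = ∑ i, (hex.choose i).natAbs := by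
      simp only [g]
      rw [dif_pos hex]
    rw [this]
    exact Finset.single_le_sum (f := fun i => (hex.choose i).natAbs)
      (fun _ _ => Nat.zero_le _) (mem_univ i)
  have h3 : g S ≤ ∑ S ∈ box.powerset, g S :=
    Finset.single_le_sum (f := g) (fun _ _ => Nat.zero_le _) hSbox
  rw [Int.abs_eq_natAbs]
  exact_mod_cast h2.trans h3

/-- The family theorem for Hodge characters. -/
theorem hodge_family (N : ℕ) : ∃ M : ℕ, ∀ m : ℕ, 0 < m → ∀ a : Fin N → ZMod m,
    (∀ i, a i ≠ 0) → (∀ t : (ZMod m)ˣ, ∑ i, point m t a i = (N : ℝ) / 2) →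
    (∃ d : ℕ, 0 < d ∧ d ≤ M ∧ d ∣ m ∧ ∀ i, (d : ZMod m) * a i = 0) ∨
    ∃ c : Fin N → ℤ, (∃ i, c i ≠ 0) ∧ (∀ i, |c i| ≤ M) ∧
      ∀ y : ℝ, (∀ i, Int.fract (point m 1 a i + c i * y) ≠ 0) →
        ∑ i, Int.fract (point m 1 a i + c i * y) = (N : ℝ) / 2 := by
  classical
  obtain ⟨M, hM⟩ := family N 1 (boxSet N ((N : ℝ) / 2) ((N : ℝ) / 2)) (boxSet_closed _ _ _)
    (boxSet_periodic _ _ _)
  obtain ⟨B, hB⟩ := exists_normal_bounded N M
  refine ⟨max M B, ?_⟩
  intro m hm a ha hlev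
  have hne : NeZero m := ⟨hm.ne'⟩
  obtain ⟨Λ, q, hq0, hqM, hspan, hsat, hq, hrel, hfam⟩ := hM m hm a fun t =>
    point_mem N m _ _ a ha t (hlev t).ge (hlev t).le
  by_cases hΛ : Λ = ⊤
  · left
    refine ⟨Nat.gcd q m, Nat.gcd_pos_of_pos_left _ hq0,
      ((Nat.le_of_dvd hq0 (Nat.gcd_dvd_left _ _)).trans hqM).trans (le_max_left _ _),
      Nat.gcd_dvd_right _ _, ?_⟩
    intro i
    have h1 : q • a i = 0 := by
      have h2 := hq (Pi.single i 1) (by rw [hΛ]; exact Submodule.mem_top)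
      rw [Finset.sum_eq_single i] at h2
      · simpa using h2
      · intro j _ hj
        rw [Pi.single_eq_of_ne hj, zero_smul]
      · intro h
        exact absurd (mem_univ i) h
    have h2 : m • a i = 0 := by rw [nsmul_eq_mul, ZMod.natCast_self, zero_mul]
    have h3 : addOrderOf (a i) ∣ Nat.gcd q m :=
      Nat.dvd_gcd (addOrderOf_dvd_of_nsmul_eq_zero h1) (addOrderOf_dvd_of_nsmul_eq_zero h2)
    rw [← nsmul_eq_mul]
    exact addOrderOf_dvd_iff_nsmul_eq_zero.mp h3
  · right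
    obtain ⟨c, hc0, hcB, hc⟩ := hB Λ hspan hsat hΛ
    refine ⟨c, hc0, fun i => (hcB i).trans (by exact_mod_cast le_max_right _ _), ?_⟩
    intro y hy
    have h1 := hfam 1 (fun i => (c i : ℝ) * y) (by
      intro l hl
      have h2 : ((∑ i, l i * c i : ℤ) : ℝ) = 0 := by rw [hc l hl]; simp
      push_cast at h2
      calc ∑ i, (l i : ℝ) * ((c i : ℝ) * y) = (∑ i, (l i : ℝ) * c i) * y := by
            rw [Finset.sum_mul]
            apply Finset.sum_congr rfl
            intro i _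
            ring
        _ = 0 := by rw [h2, zero_mul])
    have h2 := bounds_of_mem N _ _ _ h1 hy
    exact le_antisymm h2.2 h2.1

/-- the count of the solutions of the equations of a line in `ZMod m'` -/
lemma count_eq {N m m' K : ℕ} [NeZero m] [NeZero m'] (hK : K * m = m') (a : Fin N → ZMod m)
    (ha : ∀ i, a i ≠ 0) (c : Fin N → ℤ) (C : ℝ)
    (hS : ∀ y : ℝ, (∀ i, Int.fract (point m 1 a i + c i * y) ≠ 0) →
        ∑ i, Int.fract (point m 1 a i + c i * y) = C) (z : ZMod m') :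
    (univ.filter fun i => 0 < c i ∧ (c i : ZMod m') * z = iota K (a i)).card =
      (univ.filter fun i => c i < 0 ∧ (c i : ZMod m') * z = iota K (a i)).card := by
  classical
  have hmr : (0 : ℝ) < m := by exact_mod_cast Nat.pos_of_ne_zero (NeZero.ne m)
  have hm'r : (0 : ℝ) < m' := by exact_mod_cast Nat.pos_of_ne_zero (NeZero.ne m')
  have hKr : (K : ℝ) * m = m' := by exact_mod_cast hK
  have hKr0 : (K : ℝ) ≠ 0 := by
    rintro h
    rw [h, zero_mul] at hKr
    exact hm'r.ne hKr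
  have hx : ∀ i, Int.fract (point m 1 a i) ≠ 0 := by
    intro i
    unfold point
    have h1 : ((((1 : (ZMod m)ˣ) : ZMod m) * a i).val : ℝ) ≠ 0 := by
      have : (((1 : (ZMod m)ˣ) : ZMod m) * a i).val ≠ 0 := by
        rw [Units.val_one, one_mul]
        intro h
        exact ha i ((ZMod.val_eq_zero _).mp h)
      exact_mod_cast this
    have h2 : Int.fract (((((1 : (ZMod m)ˣ) : ZMod m) * a i).val : ℝ) / m) =
        ((((1 : (ZMod m)ˣ) : ZMod m) * a i).val : ℝ) / m := by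
      rw [Int.fract_eq_self]
      refine ⟨by positivity, ?_⟩
      rw [div_lt_one hmr]
      exact_mod_cast ZMod.val_lt _
    rw [h2]
    positivity
  have h := jump (fun i => point m 1 a i) c C hS hx (-(z.val : ℝ) / m')
  have hiff : ∀ i, Int.fract (point m 1 a i + c i * (-(z.val : ℝ) / m')) = 0 ↔
      (c i : ZMod m') * z = iota K (a i) := by
    intro i
    have h1 : point m 1 a i + c i * (-(z.val : ℝ) / m') =
        (((K * (a i).val : ℤ) - c i * z.val : ℤ) : ℝ) / m' := by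
      unfold point
      rw [Units.val_one, one_mul]
      push_cast
      rw [← hKr]
      field_simp
      ring
    rw [h1, Int.fract_eq_iff]
    have h2 : (c i : ZMod m') * z = iota K (a i) ↔ (m' : ℤ) ∣ ((K * (a i).val : ℤ) - c i * z.val) := by
      rw [← ZMod.intCast_zmod_eq_zero_iff_dvd]
      unfold iota
      push_cast
      rw [ZMod.natCast_zmod_val, sub_eq_zero]
      exact eq_comm
    rw [h2]
    constructor
    · rintro ⟨_, _, w, hw⟩
      refine ⟨w, ?_⟩
      rw [sub_zero, div_eq_iff hm'r.ne'] at hw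
      have h3 : (((K * (a i).val : ℤ) - c i * z.val : ℤ) : ℝ) = ((m' * w : ℤ) : ℝ) := by
        rw [hw]
        push_cast
        ring
      exact_mod_cast h3
    · rintro ⟨w, hw⟩
      refine ⟨le_rfl, one_pos, w, ?_⟩
      rw [sub_zero, hw]
      push_cast
      field_simp
  simp only [hiff] at h
  exact h

end Pool.Agent.H916F
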