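import Mathlib

/-!
An integral vector orthogonal to a saturated lattice of smaller rank.
-/

namespace Pool.Agent.H916F

open Finset

lemma exists_normal {N : ℕ} (Λ : Submodule ℤ (Fin N → ℤ))
    (hsat : ∀ (d : ℤ) (k : Fin N → ℤ), d ≠ 0 → d • k ∈ Λ → k ∈ Λ)
    (hne : Λ ≠ ⊤) :
    ∃ c : Fin N → ℤ, (∃ i, c i ≠ 0) ∧ ∀ k ∈ Λ, ∑ i, k i * c i = 0 := by
  classical
  obtain ⟨k0, hk0⟩ : ∃ k0, k0 ∉ Λ := by
    by_contra h
    push Not at h
    exact hne (eq_top_iff.mpr fun x _ => h x)
  let toQ : (Fin N → ℤ) → (Fin N → ℚ) := fun k i => (k i : ℚ)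
  let V : Submodule ℚ (Fin N → ℚ) := Submodule.span ℚ (toQ '' (Λ : Set (Fin N → ℤ)))
  have hV : ∀ v ∈ V, ∃ d : ℤ, d ≠ 0 ∧ ∃ k ∈ Λ, (d : ℚ) • v = toQ k := by
    intro v hv
    induction hv using Submodule.span_induction with
    | mem x hx =>
      obtain ⟨k, hk, rfl⟩ := hx
      exact ⟨1, one_ne_zero, k, hk, by simp⟩
    | zero => exact ⟨1, one_ne_zero, 0, Λ.zero_mem, by ext i; simp [toQ]⟩
    | add x y _ _ hx hy =>
      obtain ⟨d1, hd1, k1, hk1, h1⟩ := hx
      obtain ⟨d2, hd2, k2, hk2, h2⟩ := hy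
      refine ⟨d1 * d2, mul_ne_zero hd1 hd2, d2 • k1 + d1 • k2,
        Λ.add_mem (Λ.smul_mem d2 hk1) (Λ.smul_mem d1 hk2), ?_⟩
      ext i
      have h1' := congrFun h1 i
      have h2' := congrFun h2 i
      simp only [toQ, Pi.smul_apply, Pi.add_apply, smul_eq_mul] at h1' h2' ⊢
      push_cast
      rw [← h1', ← h2']
      ring
    | smul r x _ hx =>
      obtain ⟨d, hd, k, hk, h⟩ := hx
      refine ⟨d * r.den, mul_ne_zero hd (by exact_mod_cast r.den_nz), r.num • k,
        Λ.smul_mem _ hk, ?_⟩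
      ext i
      have h' := congrFun h i
      simp only [toQ, Pi.smul_apply, smul_eq_mul] at h' ⊢
      push_cast
      rw [← h']
      have h3 : (r.den : ℚ) * r = r.num := Rat.den_mul_eq_num r
      calc (d : ℚ) * r.den * (r * x i) = ((r.den : ℚ) * r) * (d * x i) := by ring
        _ = _ := by rw [h3]
  have hk0V : toQ k0 ∉ V := by
    intro h
    obtain ⟨d, hd, k, hk, h1⟩ := hV _ h
    apply hk0
    apply hsat d k0 hd
    have : d • k0 = k := by
      ext i
      have h2 := congrFun h1 i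
      simp only [toQ, Pi.smul_apply, smul_eq_mul] at h2 ⊢
      exact_mod_cast h2
    rw [this]
    exact hk
  obtain ⟨f, hf0, hfV⟩ := Submodule.exists_le_ker_of_notMem hk0V
  -- coordinates of `f`
  have hf : ∀ v : Fin N → ℚ, f v = ∑ i, v i * f (Pi.single i 1) := by
    intro v
    conv_lhs => rw [← Finset.univ_sum_single v]
    rw [map_sum]
    apply Finset.sum_congr rfl
    intro i _
    have : (Pi.single i (v i) : Fin N → ℚ) = (v i) • (Pi.single i 1 : Fin N → ℚ) := by
      rw [← Pi.single_smul, smul_eq_mul, mul_one]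
    rw [this, map_smul, smul_eq_mul]
  -- common denominator
  set D : ℕ := ∏ i, (f (Pi.single i 1)).den with hD
  have hD0 : (D : ℚ) ≠ 0 := by
    rw [hD]
    exact_mod_cast Finset.prod_ne_zero_iff.mpr fun i _ => (f (Pi.single i 1)).den_nz
  have hc : ∀ i, ∃ z : ℤ, (z : ℚ) = D * f (Pi.single i 1) := by
    intro i
    have h1 : (f (Pi.single i 1)).den ∣ D := by
      rw [hD]
      exact Finset.dvd_prod_of_mem (fun i => (f (Pi.single i 1)).den) (mem_univ i)
    obtain ⟨e, he⟩ := h1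
    refine ⟨e * (f (Pi.single i 1)).num, ?_⟩
    have h3 : ((f (Pi.single i 1)).den : ℚ) * f (Pi.single i 1) = (f (Pi.single i 1)).num :=
      Rat.den_mul_eq_num _
    rw [he]
    push_cast
    rw [← h3]
    ring
  choose c hc using hc
  have hsum : ∀ k : Fin N → ℤ, ((∑ i, k i * c i : ℤ) : ℚ) = D * f (toQ k) := by
    intro k
    rw [hf (toQ k), Finset.mul_sum]
    push_cast
    apply Finset.sum_congr rfl
    intro i _
    rw [hc i]
    simp only [toQ]
    ring
  refine ⟨c, ?_, ?_⟩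
  · by_contra h
    push Not at h
    have h1 := hsum k0
    simp only [h, mul_zero, Finset.sum_const_zero, Int.cast_zero] at h1
    rcases mul_eq_zero.mp h1.symm with h2 | h2
    · exact hD0 h2
    · exact hf0 h2
  · intro k hk
    have h1 : f (toQ k) = 0 := by
      have : toQ k ∈ LinearMap.ker f := hfV (Submodule.subset_span ⟨k, hk, rfl⟩)
      exact LinearMap.mem_ker.mp this
    have h2 := hsum k
    rw [h1, mul_zero] at h2
    exact_mod_cast h2

end Pool.Agent.H916F
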