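import Pool.Agent.H916F.Family
import Pool.Agent.H916F.Normal
import Pool.Agent.H916F.Defs

/-!
The family theorem for bounds on sums of fractional parts.
-/

namespace Pool.Agent.H916F

open Finset Filter Topology

/-- the closed set attached to the bounds `A ≤ ∑ ⟨x_i⟩ ≤ B` -/
def boxSet (N : ℕ) (A B : ℝ) : Set (Fin N → ℝ) :=
  closure {x | (∀ i, Int.fract (x i) ≠ 0) ∧ A ≤ ∑ i, Int.fract (x i) ∧ ∑ i, Int.fract (x i) ≤ B}

lemma boxSet_closed (N : ℕ) (A B : ℝ) : IsClosed (boxSet N A B) := isClosed_closure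

lemma boxSet_periodic (N : ℕ) (A B : ℝ) (x : Fin N → ℝ) (z : Fin N → ℤ)
    (hx : x ∈ boxSet N A B) : (fun i => x i + z i) ∈ boxSet N A B := by
  have hf : Continuous (fun (x : Fin N → ℝ) (i : Fin N) => x i + (z i : ℝ)) := by fun_prop
  refine map_mem_closure hf hx ?_
  rintro y ⟨h1, h2, h3⟩
  simp only [Set.mem_ofPred_eq, Int.fract_add_intCast]
  exact ⟨h1, h2, h3⟩

lemma bounds_of_mem (N : ℕ) (A B : ℝ) (x : Fin N → ℝ) (hx : x ∈ boxSet N A B)
    (h0 : ∀ i, Int.fract (x i) ≠ 0) :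
    A ≤ ∑ i, Int.fract (x i) ∧ ∑ i, Int.fract (x i) ≤ B := by
  have hcont : Tendsto (fun y : Fin N → ℝ => ∑ i, Int.fract (y i)) (𝓝 x)
      (𝓝 (∑ i, Int.fract (x i))) := by
    apply tendsto_finsetSum
    intro i _
    have h1 : ContinuousAt (Int.fract : ℝ → ℝ) (x i) := by
      apply continuousAt_fract
      intro h
      apply h0 i
      rw [Int.fract, ← h, sub_self]
    exact h1.tendsto.comp ((continuous_apply i).tendsto x)
  have hfreq : ∃ᶠ y in 𝓝 x, (∑ i, Int.fract (y i)) ∈ Set.Icc A B := by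
    rw [boxSet, mem_closure_iff_frequently] at hx
    exact hx.mono fun y hy => ⟨hy.2.1, hy.2.2⟩
  exact isClosed_Icc.mem_of_frequently_of_tendsto hfreq hcont

lemma point_mem (N m : ℕ) [NeZero m] (A B : ℝ) (a : Fin N → ZMod m) (ha : ∀ i, a i ≠ 0)
    (t : (ZMod m)ˣ) (hA : A ≤ ∑ i, point m t a i) (hB : ∑ i, point m t a i ≤ B) :
    (fun i => (((t : ZMod m) * a i).val : ℝ) / m) ∈ boxSet N A B := by
  have hm : (0 : ℝ) < m := by exact_mod_cast Nat.pos_of_ne_zero (NeZero.ne m)
  have hfr : ∀ i, Int.fract ((((t : ZMod m) * a i).val : ℝ) / m) =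
      (((t : ZMod m) * a i).val : ℝ) / m := by
    intro i
    rw [Int.fract_eq_self]
    refine ⟨by positivity, ?_⟩
    rw [div_lt_one hm]
    exact_mod_cast ZMod.val_lt _
  apply subset_closure
  refine ⟨?_, ?_, ?_⟩
  · intro i
    rw [hfr i]
    have h1 : ((t : ZMod m) * a i).val ≠ 0 := by
      intro h
      rw [ZMod.val_eq_zero] at h
      exact ha i ((Units.mul_right_eq_zero t).mp h)
    have h2 : (((t : ZMod m) * a i).val : ℝ) ≠ 0 := by exact_mod_cast h1
    positivity
  · simp only [hfr]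
    exact hA
  · simp only [hfr]
    exact hB

/-- The family theorem for tuples of residues. -/
theorem pencils (N k r : ℕ) : ∃ M : ℕ, ∀ m : ℕ, 0 < m → ∀ (σ : Fin N → Fin k)
    (a : Fin N → ZMod m), IsTuple m σ a → HasLevel k r m a →
    (∃ d : ℕ, 0 < d ∧ d ≤ M ∧ d ∣ m ∧ ∀ i, (d : ZMod m) * a i = 0) ∨ IsFibred r m σ a := by
  classical
  obtain ⟨M, hM⟩ := family N 1 (boxSet N ((k : ℝ) + r) ((N : ℝ) - k - r)) (boxSet_closed _ _ _)
    (boxSet_periodic _ _ _)
  refine ⟨M, ?_⟩
  intro m hm σ a ha hlev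
  have hne : NeZero m := ⟨hm.ne'⟩
  obtain ⟨Λ, q, hq0, hqM, _, hsat, hq, hrel, hfam⟩ := hM m hm a fun t =>
    point_mem N m _ _ a ha.1 t (hlev t).1 (hlev t).2
  by_cases hΛ : Λ = ⊤
  · left
    refine ⟨Nat.gcd q m, Nat.gcd_pos_of_pos_left _ hq0,
      (Nat.le_of_dvd hq0 (Nat.gcd_dvd_left _ _)).trans hqM, Nat.gcd_dvd_right _ _, ?_⟩
    intro i
    have h1 : q • a i = 0 := by
      have h2 := hq (Pi.single i 1) (by rw [hΛ]; exact Submodule.mem_top)
      rw [Finset.sum_eq_single i] at h2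
      · simpa using h2
      · intro j _ hj
        rw [Pi.single_eq_of_ne hj, zero_smul]
      · intro h
        exact absurd (mem_univ i) h
    have h2 : m • a i = 0 := by rw [nsmul_eq_mul, ZMod.natCast_self, zero_mul]
    have h3 : addOrderOf (a i) ∣ Nat.gcd q m :=
      Nat.dvd_gcd (addOrderOf_dvd_of_nsmul_eq_zero h1) (addOrderOf_dvd_of_nsmul_eq_zero h2)
    rw [← nsmul_eq_mul]
    exact addOrderOf_dvd_iff_nsmul_eq_zero.mp h3
  · right
    obtain ⟨c, hc0, hc⟩ := exists_normal Λ hsat hΛ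
    refine ⟨c, hc0, ?_, ?_⟩
    · intro j
      have h1 : (fun i => if σ i = j then (1 : ℤ) else 0) ∈ Λ := by
        apply hrel
        · intro i
          split_ifs <;> simp
        · have h2 := ha.2 j
          rw [Finset.sum_filter] at h2
          refine Eq.trans ?_ h2
          apply Finset.sum_congr rfl
          intro i _
          split_ifs <;> simp
      have h2 := hc _ h1
      rw [Finset.sum_filter]
      refine Eq.trans ?_ h2
      apply Finset.sum_congr rfl
      intro i _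
      split_ifs <;> simp
    · intro t y hy
      have h1 := hfam t (fun i => (c i : ℝ) * y) (by
        intro l hl
        have h2 : ((∑ i, l i * c i : ℤ) : ℝ) = 0 := by rw [hc l hl]; simp
        push_cast at h2
        calc ∑ i, (l i : ℝ) * ((c i : ℝ) * y) = (∑ i, (l i : ℝ) * c i) * y := by
              rw [Finset.sum_mul]
              apply Finset.sum_congr rfl
              intro i _
              ring
          _ = 0 := by rw [h2, zero_mul])
      exact bounds_of_mem N _ _ _ h1 hy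

end Pool.Agent.H916F
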