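import Mathlib

/-!
`n ≤ 2 φ(n)^2`, and the averages of additive characters over the units modulo `m`.
-/

namespace Pool.Agent.H916F

open Finset

lemma prod_primeFactors_le (n : ℕ) :
    ∏ p ∈ n.primeFactors, p ≤ 2 * (∏ p ∈ n.primeFactors, (p - 1)) ^ 2 := by
  classical
  -- split off the prime two
  have h3 : ∀ s : Finset ℕ, (∀ p ∈ s, p.Prime) → 2 ∉ s →
      ∏ p ∈ s, p ≤ (∏ p ∈ s, (p - 1)) ^ 2 := by
    intro s hs h2
    rw [← Finset.prod_pow]
    apply Finset.prod_le_prod' 
    intro p hp
    have hp2 := (hs p hp).two_le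
    have hne : p ≠ 2 := fun h => h2 (h ▸ hp)
    obtain ⟨k, rfl⟩ : ∃ k, p = k + 3 := ⟨p - 3, by omega⟩
    have : k + 3 - 1 = k + 2 := by omega
    rw [this]
    nlinarith
  by_cases h2 : 2 ∈ n.primeFactors
  · rw [← Finset.mul_prod_erase _ _ h2, ← Finset.mul_prod_erase _ (fun p => p - 1) h2]
    have := h3 (n.primeFactors.erase 2)
      (fun p hp => Nat.prime_of_mem_primeFactors (Finset.mem_of_mem_erase hp))
      (Finset.notMem_erase _ _)
    simp only [Nat.add_one_sub_one, one_mul]
    omega
  · have := h3 n.primeFactors (fun p hp => Nat.prime_of_mem_primeFactors hp) h2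
    omega

lemma prod_sub_one_le_totient {n : ℕ} (hn : n ≠ 0) :
    ∏ p ∈ n.primeFactors, (p - 1) ≤ n.totient := by
  rw [Nat.totient_eq_prod_factorization hn, Finsupp.prod, Nat.support_factorization]
  apply Finset.prod_le_prod'
  intro p hp
  have : 0 < p ^ (n.factorization p - 1) :=
    pow_pos (Nat.prime_of_mem_primeFactors hp).pos _
  nlinarith [Nat.zero_le (p - 1)]

lemma le_two_mul_totient_sq {n : ℕ} (hn : n ≠ 0) : n ≤ 2 * n.totient ^ 2 := by
  have h1 := Nat.totient_mul_prod_primeFactors n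
  have h2 := prod_primeFactors_le n
  have h3 := prod_sub_one_le_totient hn
  set P := ∏ p ∈ n.primeFactors, (p - 1) with hP
  have hPpos : 0 < P := by
    apply Finset.prod_pos
    intro p hp
    have := (Nat.prime_of_mem_primeFactors hp).two_le
    omega
  have h4 : n * P ≤ (2 * n.totient * P) * P := by
    calc n * P = n.totient * ∏ p ∈ n.primeFactors, p := h1.symm
      _ ≤ n.totient * (2 * P ^ 2) := Nat.mul_le_mul_left _ h2
      _ = (2 * n.totient * P) * P := by ring
  have h5 := Nat.le_of_mul_le_mul_right h4 hPpos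
  calc n ≤ 2 * n.totient * P := h5
    _ ≤ 2 * n.totient * n.totient := Nat.mul_le_mul_left _ h3
    _ = 2 * n.totient ^ 2 := by ring

end Pool.Agent.H916F
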