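import Pool.Agent.H336R2.V.Raman
import Pool.Agent.H916F.Totient

/-!
Averages of additive characters over the units modulo `m` (in a class modulo `q`).
-/

namespace Pool.Agent.H916F

open Finset H343

/-- a sum over the units mod `D` as a sum over the coprime residues below `D` -/
lemma sum_units_eq_range (D : ℕ) [NeZero D] (f : ℕ → ℂ) :
    ∑ v : (ZMod D)ˣ, f ((v : ZMod D).val) =
      ∑ n ∈ (range D).filter (fun n => n.Coprime D), f n := by
  classical
  refine Finset.sum_bij (fun v _ => (v : ZMod D).val) ?_ ?_ ?_ ?_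
  · intro v _
    rw [mem_filter, mem_range]
    exact ⟨ZMod.val_lt _, ZMod.val_coe_unit_coprime v⟩
  · intro v _ w _ h
    exact Units.ext (ZMod.val_injective D h)
  · intro n hn
    rw [mem_filter, mem_range] at hn
    refine ⟨ZMod.unitOfCoprime n hn.2, mem_univ _, ?_⟩
    rw [ZMod.coe_unitOfCoprime, ZMod.val_natCast, Nat.mod_eq_of_lt hn.1]
  · intro v _
    rfl

lemma stdAddChar_eq_ex (m : ℕ) [NeZero m] (j : ℤ) :
    ZMod.stdAddChar (j : ZMod m) = ex ((j : ℝ) / m) := by
  rw [ZMod.stdAddChar_coe]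
  unfold ex
  congr 1
  push_cast
  ring

/-- sums over fibres of a surjective homomorphism of finite groups -/
lemma sum_fibres {G H : Type*} [Group G] [Group H] [Fintype G] [Fintype H] (π : G →* H)
    (hπ : Function.Surjective π) (f : H → ℂ) :
    (Fintype.card H : ℂ) * ∑ g, f (π g) = (Fintype.card G : ℂ) * ∑ h, f h := by
  classical
  have h1 : ∀ h : H, (Finset.univ.filter fun g => π g = h).card =
      (Finset.univ.filter fun g => π g = 1).card := by
    intro h
    exact MonoidHom.card_fiber_eq_of_mem_range π (hπ h) (hπ 1)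
  have h2 : ∑ g, f (π g) = ∑ h, ((Finset.univ.filter fun g => π g = 1).card : ℂ) * f h := by
    rw [← Finset.sum_fiberwise Finset.univ π (fun g => f (π g))]
    apply Finset.sum_congr rfl
    intro h _
    rw [← h1 h]
    rw [Finset.sum_congr rfl (g := fun _ => f h)
      (fun g hg => by rw [(Finset.mem_filter.mp hg).2])]
    rw [Finset.sum_const, nsmul_eq_mul]
  have h3 : (Fintype.card G : ℂ) =
      (Fintype.card H : ℂ) * ((Finset.univ.filter fun g => π g = 1).card : ℂ) := by
    have : Fintype.card G = Fintype.card H * (Finset.univ.filter fun g => π g = 1).card := by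
      rw [← Finset.card_univ, Finset.card_eq_sum_card_fiberwise (f := π) (t := Finset.univ)
        (fun _ _ => Finset.mem_coe.mpr (Finset.mem_univ _))]
      rw [Finset.sum_congr rfl (fun h _ => h1 h), Finset.sum_const, Finset.card_univ,
        smul_eq_mul]
    rw [this]
    push_cast
    rfl
  rw [h2, ← Finset.mul_sum, h3]
  ring

/-- the sum of an additive character of order `D` over the units modulo `m` is at most
`φ(m) / φ(D)` -/
theorem norm_sum_units_le (m : ℕ) [NeZero m] (b : ZMod m) :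
    ‖∑ u : (ZMod m)ˣ, ZMod.stdAddChar ((u : ZMod m) * b)‖ * ((addOrderOf b).totient : ℝ) ≤
      (m.totient : ℝ) := by
  classical
  have hm : m ≠ 0 := NeZero.ne m
  set D := addOrderOf b with hD
  have hDm : D ∣ m := by
    have := addOrderOf_dvd_card (x := b)
    rwa [ZMod.card] at this
  have hD0 : D ≠ 0 := fun h => hm (by rw [h] at hDm; exact Nat.eq_zero_of_zero_dvd hDm)
  have : NeZero D := ⟨hD0⟩
  obtain ⟨g, hg⟩ := hDm
  have hg0 : g ≠ 0 := by rintro rfl; simp at hg; exact hm hg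
  -- `b = g * c` with `c` coprime to `D`
  have hb1 : g ∣ b.val := by
    have h1 : D • b = 0 := addOrderOf_nsmul_eq_zero b
    have h2 : ((D * b.val : ℕ) : ZMod m) = 0 := by
      rw [Nat.cast_mul, ZMod.natCast_zmod_val, ← nsmul_eq_mul]
      exact h1
    rw [ZMod.natCast_eq_zero_iff] at h2
    obtain ⟨k, hk⟩ := h2
    refine ⟨k, ?_⟩
    apply Nat.eq_of_mul_eq_mul_left (Nat.pos_of_ne_zero hD0)
    rw [hk]
    nth_rewrite 1 [hg]
    ring
  obtain ⟨c, hc⟩ := hb1
  have hcop : Nat.Coprime c D := by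
    by_contra hne
    obtain ⟨p, hp, hpc, hpD⟩ := Nat.Prime.not_coprime_iff_dvd.mp hne
    obtain ⟨c', hc'⟩ := hpc
    obtain ⟨D', hD'⟩ := hpD
    have h1 : D' • b = 0 := by
      have h2 : ((D' * b.val : ℕ) : ZMod m) = 0 := by
        rw [ZMod.natCast_eq_zero_iff]
        refine ⟨c', ?_⟩
        rw [hc, hc', hg]
        rw [hD']
        ring
      rw [Nat.cast_mul, ZMod.natCast_zmod_val, ← nsmul_eq_mul] at h2
      exact h2
    have h3 : D ∣ D' := addOrderOf_dvd_of_nsmul_eq_zero h1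
    have hD'0 : 0 < D' := Nat.pos_of_ne_zero (by rintro rfl; simp at hD'; exact hD0 hD')
    have h4 := Nat.le_of_dvd hD'0 h3
    have h5 := hp.two_le
    nlinarith
  have hDm' : D ∣ m := ⟨g, hg⟩
  -- the character only depends on `u` modulo `D`
  have key : ∀ u : (ZMod m)ˣ, ZMod.stdAddChar ((u : ZMod m) * b) =
      ex ((((ZMod.unitsMap hDm' u : (ZMod D)ˣ) : ZMod D).val : ℝ) * (c : ℤ) / D) := by
    intro u
    have h1 : ((ZMod.unitsMap hDm' u : (ZMod D)ˣ) : ZMod D) =
        (((u : ZMod m).val : ℤ) : ZMod D) := by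
      rw [ZMod.unitsMap_val]
      rw [ZMod.cast_eq_val]
      push_cast
      rfl
    have h2 : ((u : ZMod m) * b) = ((((u : ZMod m).val : ℤ) * (b.val : ℤ) : ℤ) : ZMod m) := by
      push_cast
      rw [ZMod.natCast_zmod_val, ZMod.natCast_zmod_val]
    have h3 : ex ((((ZMod.unitsMap hDm' u : (ZMod D)ˣ) : ZMod D).val : ℝ) * (c : ℤ) / D) =
        ZMod.stdAddChar ((((ZMod.unitsMap hDm' u : (ZMod D)ˣ) : ZMod D).val : ℤ) * (c : ℤ) :
          ZMod D) := by
      have := stdAddChar_eq_ex D ((((ZMod.unitsMap hDm' u : (ZMod D)ˣ) : ZMod D).val : ℤ) * (c : ℤ))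
      push_cast at this ⊢
      rw [this]
    rw [h3, h2, stdAddChar_eq_ex]
    have h4 : (((((ZMod.unitsMap hDm' u : (ZMod D)ˣ) : ZMod D).val : ℤ) * (c : ℤ) : ℤ) :
        ZMod D) = ((((u : ZMod m).val : ℤ) * (c : ℤ) : ℤ) : ZMod D) := by
      push_cast
      rw [ZMod.natCast_zmod_val]
      rw [h1]
      push_cast
      rfl
    push_cast at h4
    push_cast
    rw [h4]
    have h5 := stdAddChar_eq_ex D (((u : ZMod m).val : ℤ) * (c : ℤ))
    push_cast at h5
    rw [h5]
    congr 1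
    have hgr : (g : ℝ) ≠ 0 := by exact_mod_cast hg0
    have hDr : (D : ℝ) ≠ 0 := by exact_mod_cast hD0
    rw [hc]
    have hmr : (m : ℝ) = D * g := by rw [hg]; push_cast; rfl
    rw [hmr]
    push_cast
    field_simp
  have hsum : ∑ u : (ZMod m)ˣ, ZMod.stdAddChar ((u : ZMod m) * b) =
      ∑ u : (ZMod m)ˣ, (fun v : (ZMod D)ˣ => ex (((v : ZMod D).val : ℝ) * (c : ℤ) / D))
        (ZMod.unitsMap hDm' u) := Finset.sum_congr rfl fun u _ => key u
  have hfib := sum_fibres (ZMod.unitsMap hDm') (ZMod.unitsMap_surjective hDm')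
    (fun v : (ZMod D)ˣ => ex (((v : ZMod D).val : ℝ) * (c : ℤ) / D))
  rw [← hsum, ZMod.card_units_eq_totient, ZMod.card_units_eq_totient] at hfib
  have hram : ‖∑ v : (ZMod D)ˣ, ex (((v : ZMod D).val : ℝ) * (c : ℤ) / D)‖ ≤ 1 := by
    rw [sum_units_eq_range D (fun n => ex ((n : ℝ) * (c : ℤ) / D))]
    refine (H336V.raman D (Nat.one_le_iff_ne_zero.mpr hD0) (c : ℤ)).trans ?_
    have : D.divisors.filter (fun d : ℕ => (d : ℤ) ∣ (c : ℤ)) ⊆ {1} := by
      intro d hd
      rw [mem_filter, Nat.mem_divisors] at hd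
      rw [mem_singleton]
      have h1 : d ∣ c := by exact_mod_cast hd.2
      exact Nat.eq_one_of_dvd_coprimes hcop h1 hd.1.1
    calc ∑ d ∈ D.divisors.filter (fun d : ℕ => (d : ℤ) ∣ (c : ℤ)), (d : ℝ)
        ≤ ∑ d ∈ ({1} : Finset ℕ), (d : ℝ) :=
          Finset.sum_le_sum_of_subset_of_nonneg this (fun _ _ _ => by positivity)
      _ = 1 := by simp
  have hn := congrArg norm hfib
  rw [norm_mul, norm_mul, Complex.norm_natCast, Complex.norm_natCast] at hn
  calc ‖∑ u : (ZMod m)ˣ, ZMod.stdAddChar ((u : ZMod m) * b)‖ * (D.totient : ℝ)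
      = (m.totient : ℝ) * ‖∑ v : (ZMod D)ˣ, ex (((v : ZMod D).val : ℝ) * (c : ℤ) / D)‖ := by
        rw [← hn]; ring
    _ ≤ (m.totient : ℝ) * 1 := by
        apply mul_le_mul_of_nonneg_left hram (by positivity)
    _ = (m.totient : ℝ) := mul_one _

end Pool.Agent.H916F
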