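import Pool.Agent.H916F.HodgeFamily

/-!
Odd distributions vanish on Hodge characters of bounded length as soon as they vanish on the
finitely many small ones.
-/

namespace Pool.Agent.H916F

open Finset Pool.Agent.H916R2

lemma oddDist_saw {m : ℕ} [NeZero m] (t : (ZMod m)ˣ) :
    OddDist (fun a : ZMod m => saw ((t : ZMod m) * a)) where
  neg := fun a => by rw [mul_neg, saw_neg]
  half := fun a ha => by
    apply saw_half
    rw [← mul_add, ha, mul_zero]
  dist := fun p d _ hpd a => saw_dist_unit hpd t a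

lemma sum_point {N m : ℕ} [NeZero m] (a : Fin N → ZMod m) (ha : ∀ i, a i ≠ 0) (t : (ZMod m)ˣ)
    (h : ∑ i, saw ((t : ZMod m) * a i) = 0) : ∑ i, point m t a i = (N : ℝ) / 2 := by
  have hm : (0 : ℝ) < m := by exact_mod_cast Nat.pos_of_ne_zero (NeZero.ne m)
  have h1 : ∑ i, (2 * (((t : ZMod m) * a i).val : ℤ) - m) = 0 := by
    rw [← h]
    apply Finset.sum_congr rfl
    intro i _
    rw [saw_of_ne_zero (unit_mul_ne_zero t (ha i))]
  rw [Finset.sum_sub_distrib, Finset.sum_const, Finset.card_univ, Fintype.card_fin,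
    nsmul_eq_mul, ← Finset.mul_sum] at h1
  have h2 : 2 * ∑ i, (((t : ZMod m) * a i).val : ℝ) - N * m = 0 := by
    have h3 : (((2 * ∑ i, (((t : ZMod m) * a i).val : ℤ) - N * m : ℤ)) : ℝ) = 0 := by
      rw [h1]; simp
    push_cast at h3
    exact h3
  unfold point
  rw [← Finset.sum_div, div_eq_div_iff hm.ne' (by norm_num)]
  linarith

lemma exists_iota {k m0 m : ℕ} [NeZero m] [NeZero m0] (h : k * m0 = m) {x : ZMod m}
    (hx : (m0 : ZMod m) * x = 0) : ∃ b : ZMod m0, x = iota k b := by
  obtain ⟨j, _, hj⟩ := torsion_eq (m := m) (c := m0) (e := k) (by rw [mul_comm]; exact h) hx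
  refine ⟨((j : ℕ) : ZMod m0), ?_⟩
  rw [iota_natCast h, hj]
  push_cast
  ring

/-- small characters -/
lemma vanish_small {N n m m' K d : ℕ} [NeZero m] [NeZero m'] [NeZero d] (hN : N ≤ 2 * n)
    (hK : K * m = m') (h2 : 2 ∣ d) (hdm : d ∣ m) {Q : Type} [AddCommGroup Q] (f : ZMod m' → Q)
    (hf : OddDist f)
    (hsm : ∀ s0 : Multiset (ZMod d), IsHodge d s0 → Multiset.card s0 ≤ 2 * n →
      (s0.map fun b => f (iota (m' / d) b)).sum = 0)
    (a : Fin N → ZMod m) (ha : ∀ i, a i ≠ 0)
    (hsaw : ∀ t : (ZMod m)ˣ, ∑ i, saw ((t : ZMod m) * a i) = 0)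
    (hd : ∀ i, (d : ZMod m) * a i = 0) :
    ∑ i, f (iota K (a i)) = 0 := by
  classical
  have hd0 : d ≠ 0 := NeZero.ne d
  have hm0 : m ≠ 0 := NeZero.ne m
  obtain ⟨k, hk⟩ := hdm
  have hkd : k * d = m := by rw [hk]; ring
  have hk0 : k ≠ 0 := by rintro rfl; simp at hkd; exact hm0 hkd.symm
  have hKk : m' / d = K * k := by
    rw [← hK, ← hkd, ← mul_assoc]
    exact Nat.mul_div_cancel _ (Nat.pos_of_ne_zero hd0)
  have hKkd : K * k * d = m' := by rw [mul_assoc, hkd, hK]
  choose b hb using fun i => exists_iota hkd (hd i)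
  have hb0 : ∀ i, b i ≠ 0 := by
    intro i h
    apply ha i
    rw [hb i, h, iota_zero]
  have hiota : ∀ i, iota (m' / d) (b i) = (iota K (a i) : ZMod m') := by
    intro i
    rw [hKk, hb i, iota_comp hK]
  have hbsaw : ∀ t : (ZMod d)ˣ, ∑ i, saw ((t : ZMod d) * b i) = 0 := by
    intro t
    obtain ⟨t', ht'⟩ := ZMod.unitsMap_surjective (Dvd.intro_left k hkd : d ∣ m) t
    have h1 := hsaw t'
    have h3 : ∀ i, saw ((t' : ZMod m) * a i) = (k : ℤ) * saw ((t : ZMod d) * b i) := by
      intro i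
      rw [hb i, unit_iota hkd, ht', saw_iota hkd]
    rw [Finset.sum_congr rfl (fun i _ => h3 i), ← Finset.mul_sum] at h1
    rcases mul_eq_zero.mp h1 with h4 | h4
    · exact absurd (by exact_mod_cast h4) hk0
    · exact h4
  have hms : ∀ g : ZMod d → ℤ, ((univ.val.map b).map g).sum = ∑ i, g (b i) := by
    intro g
    rw [Multiset.map_map]
    rfl
  have h0 : (0 : ZMod d) ∉ (univ.val.map b : Multiset (ZMod d)) := by
    intro h
    obtain ⟨i, _, hi⟩ := Multiset.mem_map.mp h
    exact hb0 i hi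
  have hcard : Multiset.card (univ.val.map b : Multiset (ZMod d)) = N := by
    rw [Multiset.card_map]
    simp
  have hfin : ∑ i, f (iota K (a i)) =
      ((univ.val.map b : Multiset (ZMod d)).map fun b => f (iota (m' / d) b)).sum := by
    rw [Multiset.map_map]
    show _ = ∑ i, f (iota (m' / d) (b i))
    exact Finset.sum_congr rfl fun i _ => by rw [hiota i]
  by_cases heven : Even N
  · rw [hfin]
    apply hsm _ (isHodge_of_saw h0 (by rw [hcard]; exact heven) (fun t => by
      rw [hms]; exact hbsaw t)) (by rw [hcard]; exact hN)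
  · rw [Nat.not_even_iff_odd] at heven
    set h : ZMod d := ((d / 2 : ℕ) : ZMod d) with hh
    have hhh : h + h = 0 := by
      have : ((2 * (d / 2) : ℕ) : ZMod d) = 0 := by rw [Nat.mul_div_cancel' h2]; simp
      rw [hh, ← two_mul]; push_cast at this; exact this
    have hh0 : h ≠ 0 := by
      intro h'
      rw [hh, ZMod.natCast_eq_zero_iff] at h'
      have hmp := Nat.pos_of_ne_zero hd0
      have h5 : 0 < d / 2 := Nat.div_pos (Nat.le_of_dvd hmp h2) (by norm_num)
      have := Nat.le_of_dvd h5 h'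
      omega
    have h1 := hsm (h ::ₘ univ.val.map b) (isHodge_of_saw
      (by rw [Multiset.mem_cons, not_or]; exact ⟨Ne.symm hh0, h0⟩)
      (by rw [Multiset.card_cons, hcard]; exact heven.add_one)
      (by
        intro t
        rw [Multiset.map_cons, Multiset.sum_cons, hms, hbsaw t, add_zero]
        apply saw_half
        rw [← mul_add, hhh, mul_zero]))
      (by
        rw [Multiset.card_cons, hcard]
        obtain ⟨w, hw⟩ := heven
        omega)
    rw [Multiset.map_cons, Multiset.sum_cons, ← hfin] at h1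
    have h3 : f (iota (m' / d) h) = 0 := by
      apply hf.half
      rw [← iota_add (by rw [hKk]; exact hKkd), hhh, iota_zero]
    rw [h3, zero_add] at h1
    exact h1

theorem vanish (n : ℕ) : ∃ M K0 : ℕ, 0 < K0 ∧ ∀ m m' K : ℕ, 0 < m → 2 ∣ m → 0 < K → K0 ∣ K →
    K * m = m' → ∀ (Q : Type) [AddCommGroup Q] (f : ZMod m' → Q), OddDist f →
    (∀ d : ℕ, 0 < d → d ≤ M → 2 ∣ d → d ∣ m → ∀ s0 : Multiset (ZMod d), IsHodge d s0 →
      Multiset.card s0 ≤ 2 * n → (s0.map fun b => f (iota (m' / d) b)).sum = 0) →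
    ∀ N : ℕ, N ≤ 2 * n → ∀ a : Fin N → ZMod m, (∀ i, a i ≠ 0) →
      (∀ t : (ZMod m)ˣ, ∑ i, saw ((t : ZMod m) * a i) = 0) →
      ∑ i, f (iota K (a i)) = 0 := by
  classical
  choose Mf hMf using hodge_family
  set M1 := ∑ N ∈ range (2 * n + 1), Mf N with hM1
  refine ⟨2 * M1, M1.factorial, Nat.factorial_pos _, ?_⟩
  intro m m' K hm h2m hK hK0 hKm Q _ f hf hsm N
  induction N using Nat.strong_induction_on with
  | _ N ih =>
  intro hN a ha hsaw
  have hne : NeZero m := ⟨hm.ne'⟩
  have hne' : NeZero m' := ⟨by rw [← hKm]; exact (Nat.mul_pos hK hm).ne'⟩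
  have hMle : Mf N ≤ M1 := by
    rw [hM1]
    exact Finset.single_le_sum (f := Mf) (fun _ _ => Nat.zero_le _)
      (mem_range.mpr (by omega))
  rcases hMf N m hm a ha (fun t => sum_point a ha t (hsaw t)) with
    ⟨d, hd0, hdM, hdm, hda⟩ | ⟨c, ⟨i0, hi0⟩, hcM, hcS⟩
  · -- small order
    set D := Nat.lcm 2 d with hD
    have hDm : D ∣ m := Nat.lcm_dvd h2m hdm
    have hD0 : 0 < D := Nat.lcm_pos (by norm_num) hd0
    have hneD : NeZero D := ⟨hD0.ne'⟩
    have hDle : D ≤ 2 * M1 := by
      calc D ≤ 2 * d := Nat.le_of_dvd (by omega) (Nat.lcm_dvd_mul 2 d)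
        _ ≤ 2 * M1 := by omega
    apply vanish_small hN hKm (Nat.dvd_lcm_left 2 d) hDm f hf
      (fun s0 hs0 hc0 => hsm D hD0 hDle (Nat.dvd_lcm_left 2 d) hDm s0 hs0 hc0) a ha hsaw
    intro i
    obtain ⟨e, he⟩ := Nat.dvd_lcm_right 2 d
    rw [he]
    push_cast
    rw [mul_comm (d : ZMod m), mul_assoc, hda i, mul_zero]
  · -- a line
    have hcK : ∀ i, c i ≠ 0 → (c i).natAbs ∣ K := by
      intro i hi
      refine dvd_trans ?_ hK0
      apply Nat.dvd_factorial (Int.natAbs_pos.mpr hi)
      have h1 := hcM i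
      rw [Int.abs_eq_natAbs] at h1
      have h3 : (c i).natAbs ≤ Mf N := by exact_mod_cast h1
      omega
    have hdvd : ∀ i, c i ≠ 0 → (c i).natAbs ∣ m' := fun i hi =>
      (hcK i hi).trans (Dvd.intro m hKm)
    have hsol : ∀ i, c i ≠ 0 → ∃ z : ZMod m', (c i : ZMod m') * z = iota K (a i) := by
      intro i hi
      obtain ⟨e, he⟩ := hcK i hi
      refine ⟨(((c i).sign * (e * (a i).val : ℤ) : ℤ) : ZMod m'), ?_⟩
      unfold iota
      rw [← Int.cast_mul]
      have h1 : c i * ((c i).sign * (e * (a i).val : ℤ)) = ((K * (a i).val : ℕ) : ℤ) := by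
        rw [he]
        push_cast
        rw [← mul_assoc, Int.mul_sign_self]
        rw [Int.abs_eq_natAbs]
        ring
      rw [h1]
      push_cast
      rfl
    have hcount := count_eq (m' := m') hKm a ha c _ hcS
    -- the relation for `f`
    have hrel : ∑ i ∈ univ.filter (fun i => c i ≠ 0), f (iota K (a i)) = 0 :=
      line_rel hf c _ hdvd hsol hcount
    -- the relation for the sawtooth
    have hrelsaw : ∀ t : (ZMod m)ˣ,
        ∑ i ∈ univ.filter (fun i => c i ≠ 0), saw ((t : ZMod m) * a i) = 0 := by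
      intro t
      obtain ⟨t', ht'⟩ := ZMod.unitsMap_surjective (Dvd.intro_left K hKm : m ∣ m') t
      have h1 := line_rel (oddDist_saw t') c _ hdvd hsol hcount
      have h3 : ∀ i, saw ((t' : ZMod m') * iota K (a i)) = (K : ℤ) * saw ((t : ZMod m) * a i) := by
        intro i
        rw [unit_iota hKm, ht', saw_iota hKm]
      rw [Finset.sum_congr rfl (fun i _ => h3 i), ← Finset.mul_sum] at h1
      rcases mul_eq_zero.mp h1 with h4 | h4
      · exact absurd (by exact_mod_cast h4) hK.ne'
      · exact h4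
    -- the rest
    set S : Finset (Fin N) := univ.filter (fun i => ¬ c i ≠ 0) with hS
    have hScard : S.card < N := by
      have h1 : S ⊂ univ := by
        rw [Finset.ssubset_univ_iff]
        intro h
        have h3 : i0 ∈ S := by rw [h]; exact mem_univ _
        rw [hS, mem_filter] at h3
        exact h3.2 hi0
      have h3 := Finset.card_lt_card h1
      rwa [Finset.card_univ, Fintype.card_fin] at h3
    let e : Fin S.card ≃ S := S.equivFin.symm
    have hsumS : ∀ {R : Type} [AddCommGroup R] (g : ZMod m → R),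
        ∑ j, g (a (e j)) = ∑ i ∈ S, g (a i) := by
      intro R _ g
      rw [← Finset.sum_coe_sort S (fun i => g (a i))]
      exact Equiv.sum_comp e (fun i : S => g (a i))
    have hrest := ih S.card hScard (by omega) (fun j => a (e j)) (fun j => ha _) (by
      intro t
      rw [hsumS (fun x => saw ((t : ZMod m) * x))]
      have h1 := hsaw t
      rw [← Finset.sum_filter_add_sum_filter_not univ (fun i => c i ≠ 0), hrelsaw t,
        zero_add] at h1
      exact h1)
    rw [hsumS (fun x => f (iota K x))] at hrest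
    rw [← Finset.sum_filter_add_sum_filter_not univ (fun i => c i ≠ 0), hrel, zero_add]
    exact hrest

end Pool.Agent.H916F
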